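import Mathlib

set_option autoImplicit false

open Finset

namespace Pool.Agent.Helper645.Alm

/-- The normalising sum of the truncated geometric distribution. -/
noncomputable def Z (d : ℕ) (q : ℝ) : ℝ := ∑ j ∈ range d, q ^ j

/-- The weights of the truncated geometric distribution. -/
noncomputable def w (d : ℕ) (q : ℝ) (j : ℕ) : ℝ := q ^ j / Z d q

/-- The mean of the truncated geometric distribution. -/
noncomputable def mu (d : ℕ) (q : ℝ) : ℝ := ∑ j ∈ range d, w d q j * (j : ℝ)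

/-- The imaginary part of the centred characteristic function. -/
noncomputable def im (d : ℕ) (q y : ℝ) : ℝ :=
  ∑ j ∈ range d, w d q j * Real.sin (y * ((j : ℝ) - mu d q))

/-- The real part of the centred characteristic function. -/
noncomputable def re (d : ℕ) (q y : ℝ) : ℝ :=
  ∑ j ∈ range d, w d q j * Real.cos (y * ((j : ℝ) - mu d q))

section basic

variable {d : ℕ} {q : ℝ}

theorem Z_ge_one (hd : 2 ≤ d) (hq : 0 ≤ q) : 1 ≤ Z d q := by
  unfold Z
  obtain ⟨e, rfl⟩ : ∃ e, d = e + 1 := ⟨d - 1, by omega⟩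
  rw [Finset.sum_range_succ']
  have : 0 ≤ ∑ k ∈ range e, q ^ (k + 1) := Finset.sum_nonneg (fun k _ => pow_nonneg hq _)
  simp only [pow_zero]
  linarith

theorem Z_pos (hd : 2 ≤ d) (hq : 0 ≤ q) : 0 < Z d q := lt_of_lt_of_le one_pos (Z_ge_one hd hq)

theorem Z_le (hq : 0 ≤ q) (hq1 : q ≤ 1) : Z d q ≤ d := by
  unfold Z
  calc ∑ j ∈ range d, q ^ j ≤ ∑ j ∈ range d, (1 : ℝ) :=
        Finset.sum_le_sum (fun j _ => pow_le_one₀ hq hq1)
    _ = d := by simp

theorem w_nonneg (hd : 2 ≤ d) (hq : 0 ≤ q) (j : ℕ) : 0 ≤ w d q j :=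
  div_nonneg (pow_nonneg hq _) (Z_pos hd hq).le

theorem w_sum (hd : 2 ≤ d) (hq : 0 ≤ q) : ∑ j ∈ range d, w d q j = 1 := by
  unfold w
  rw [← Finset.sum_div]
  exact div_self (Z_pos hd hq).ne'

theorem w_le_pow (hd : 2 ≤ d) (hq : 0 ≤ q) (j : ℕ) : w d q j ≤ q ^ j := by
  unfold w
  exact div_le_self (pow_nonneg hq _) (Z_ge_one hd hq)

theorem w_le_q (hd : 2 ≤ d) (hq : 0 ≤ q) (hq1 : q ≤ 1) {j : ℕ} (hj : 1 ≤ j) : w d q j ≤ q := by
  refine (w_le_pow hd hq j).trans ?_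
  calc q ^ j ≤ q ^ 1 := pow_le_pow_of_le_one hq hq1 hj
    _ = q := pow_one q

theorem w_centered (hd : 2 ≤ d) (hq : 0 ≤ q) :
    ∑ j ∈ range d, w d q j * ((j : ℝ) - mu d q) = 0 := by
  simp only [mul_sub, Finset.sum_sub_distrib]
  rw [← Finset.sum_mul, w_sum hd hq, one_mul]
  unfold mu
  exact sub_self _

theorem mu_nonneg (hd : 2 ≤ d) (hq : 0 ≤ q) : 0 ≤ mu d q :=
  Finset.sum_nonneg (fun j _ => mul_nonneg (w_nonneg hd hq j) (Nat.cast_nonneg j))

theorem mu_le (hd : 2 ≤ d) (hq : 0 ≤ q) : mu d q ≤ d := by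
  unfold mu
  calc ∑ j ∈ range d, w d q j * (j : ℝ) ≤ ∑ j ∈ range d, w d q j * (d : ℝ) := by
        refine Finset.sum_le_sum (fun j hj => ?_)
        have : (j : ℝ) ≤ d := by
          exact_mod_cast (Finset.mem_range.mp hj).le
        exact mul_le_mul_of_nonneg_left this (w_nonneg hd hq j)
    _ = d := by rw [← Finset.sum_mul, w_sum hd hq, one_mul]

theorem abs_sub_mu_le (hd : 2 ≤ d) (hq : 0 ≤ q) {j : ℕ} (hj : j ∈ range d) :
    |(j : ℝ) - mu d q| ≤ d := by
  have h1 := mu_nonneg hd hq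
  have h2 := mu_le hd hq
  have h3 : (j : ℝ) ≤ d := by exact_mod_cast (Finset.mem_range.mp hj).le
  have h4 : (0 : ℝ) ≤ j := Nat.cast_nonneg j
  rw [abs_le]
  constructor <;> linarith

theorem mu_le_q (hd : 2 ≤ d) (hq : 0 ≤ q) (hq1 : q ≤ 1) : mu d q ≤ (d : ℝ) ^ 2 * q := by
  unfold mu
  calc ∑ j ∈ range d, w d q j * (j : ℝ) ≤ ∑ j ∈ range d, (d : ℝ) * q := by
        refine Finset.sum_le_sum (fun j hj => ?_)
        have hjd : (j : ℝ) ≤ d := by exact_mod_cast (Finset.mem_range.mp hj).le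
        rcases Nat.eq_zero_or_pos j with h | h
        · subst h
          simp only [Nat.cast_zero, mul_zero]
          positivity
        · calc w d q j * (j : ℝ) ≤ q * d :=
                mul_le_mul (w_le_q hd hq hq1 h) hjd (Nat.cast_nonneg j) hq
            _ = d * q := mul_comm _ _
    _ = (d : ℝ) ^ 2 * q := by
        rw [Finset.sum_const, Finset.card_range, nsmul_eq_mul]
        ring

/-- The second moment bound. -/
theorem second_moment (hd : 2 ≤ d) (hq : 0 ≤ q) (hq1 : q ≤ 1) :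
    ∑ j ∈ range d, w d q j * ((j : ℝ) - mu d q) ^ 2 ≤ (d : ℝ) ^ 3 * q := by
  have h1 : ∑ j ∈ range d, w d q j * ((j : ℝ) - mu d q) ^ 2
      = ∑ j ∈ range d, w d q j * (j : ℝ) ^ 2 - mu d q ^ 2 := by
    have : ∀ j ∈ range d, w d q j * ((j : ℝ) - mu d q) ^ 2
        = w d q j * (j : ℝ) ^ 2 - 2 * mu d q * (w d q j * j) + mu d q ^ 2 * w d q j := by
      intro j _; ring
    rw [Finset.sum_congr rfl this, Finset.sum_add_distrib, Finset.sum_sub_distrib,
      ← Finset.mul_sum, ← Finset.mul_sum, w_sum hd hq]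
    have : ∑ j ∈ range d, w d q j * (j : ℝ) = mu d q := rfl
    rw [this]
    ring
  rw [h1]
  have h2 : ∑ j ∈ range d, w d q j * (j : ℝ) ^ 2 ≤ (d : ℝ) ^ 3 * q := by
    calc ∑ j ∈ range d, w d q j * (j : ℝ) ^ 2 ≤ ∑ j ∈ range d, (d : ℝ) ^ 2 * q := by
          refine Finset.sum_le_sum (fun j hj => ?_)
          have hjd : (j : ℝ) ≤ d := by exact_mod_cast (Finset.mem_range.mp hj).le
          rcases Nat.eq_zero_or_pos j with h | h
          · subst h
            simp only [Nat.cast_zero, ne_eq, OfNat.ofNat_ne_zero, not_false_eq_true, zero_pow,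
              mul_zero]
            positivity
          · calc w d q j * (j : ℝ) ^ 2 ≤ q * (d : ℝ) ^ 2 := by
                  refine mul_le_mul (w_le_q hd hq hq1 h) ?_ (by positivity) hq
                  exact pow_le_pow_left₀ (Nat.cast_nonneg j) hjd 2
              _ = (d : ℝ) ^ 2 * q := mul_comm _ _
      _ = (d : ℝ) ^ 3 * q := by
          rw [Finset.sum_const, Finset.card_range, nsmul_eq_mul]
          ring
  have := sq_nonneg (mu d q)
  linarith

theorem w_near (hd : 2 ≤ d) (hq : 0 ≤ q) (hq1 : q ≤ 1) {j : ℕ} (hj : j ∈ range d) :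
    |w d q j - 1 / d| ≤ 2 * d * (1 - q) := by
  have hd0 : (0 : ℝ) < d := by positivity
  have hpow : ∀ i ∈ range d, 1 - q ^ i ≤ d * (1 - q) := by
    intro i hi
    have h1 : 1 + (i : ℝ) * (q - 1) ≤ q ^ i := by
      have := one_add_mul_le_pow (show (-2 : ℝ) ≤ q - 1 by linarith) i
      simpa using this
    have h2 : (i : ℝ) ≤ d := by exact_mod_cast (Finset.mem_range.mp hi).le
    nlinarith
  have hZ : (d : ℝ) - Z d q ≤ d * (d * (1 - q)) := by
    have : (d : ℝ) - Z d q = ∑ i ∈ range d, (1 - q ^ i) := by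
      rw [Finset.sum_sub_distrib]
      simp [Z]
    rw [this]
    calc ∑ i ∈ range d, (1 - q ^ i) ≤ ∑ i ∈ range d, (d : ℝ) * (1 - q) :=
          Finset.sum_le_sum hpow
      _ = d * (d * (1 - q)) := by rw [Finset.sum_const, Finset.card_range, nsmul_eq_mul]
  have hZ1 := Z_ge_one hd hq
  have hZ2 : Z d q ≤ d := Z_le hq hq1
  have hj1 := hpow j hj
  have hj2 : q ^ j ≤ 1 := pow_le_one₀ hq hq1
  have e1 : w d q j - 1 / d = (d * q ^ j - Z d q) / (d * Z d q) := by
    unfold w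
    field_simp
  rw [e1, abs_div, abs_of_pos (show 0 < (d : ℝ) * Z d q by positivity)]
  rw [div_le_iff₀ (by positivity)]
  have h3 : |(d : ℝ) * q ^ j - Z d q| ≤ d * (d * (1 - q)) := by
    rw [abs_le]
    constructor
    · nlinarith
    · nlinarith
  have h4 : (d : ℝ) * (d * (1 - q)) ≤ 2 * d * (1 - q) * (d * Z d q) := by
    have : (0 : ℝ) ≤ d * (d * (1 - q)) := by
      have : 0 ≤ 1 - q := by linarith
      positivity
    nlinarith
  exact h3.trans h4

theorem mu_near (hd : 2 ≤ d) (hq : 0 ≤ q) (hq1 : q ≤ 1) :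
    |mu d q - ((d : ℝ) - 1) / 2| ≤ 2 * d ^ 3 * (1 - q) := by
  have hd0 : (0 : ℝ) < d := by positivity
  have hs : ∑ j ∈ range d, (1 / (d : ℝ)) * (j : ℝ) = ((d : ℝ) - 1) / 2 := by
    rw [← Finset.mul_sum]
    have h := Finset.sum_range_id_mul_two d
    have h' : (∑ j ∈ range d, (j : ℝ)) * 2 = d * (d - 1) := by
      have h2 : ((∑ i ∈ range d, i : ℕ) : ℝ) * 2 = (d : ℝ) * ((d - 1 : ℕ) : ℝ) := by
        exact_mod_cast h
      rw [Nat.cast_sum, Nat.cast_sub (by omega)] at h2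
      simpa using h2
    field_simp
    linarith
  rw [← hs]
  unfold mu
  rw [← Finset.sum_sub_distrib]
  refine (Finset.abs_sum_le_sum_abs _ _).trans ?_
  calc ∑ j ∈ range d, |w d q j * (j : ℝ) - 1 / (d : ℝ) * j|
      ≤ ∑ j ∈ range d, 2 * d * (1 - q) * d := by
        refine Finset.sum_le_sum (fun j hj => ?_)
        rw [← sub_mul, abs_mul]
        have hjd : (j : ℝ) ≤ d := by exact_mod_cast (Finset.mem_range.mp hj).le
        refine mul_le_mul (w_near hd hq hq1 hj) ?_ (abs_nonneg _) ?_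
        · rw [abs_of_nonneg (Nat.cast_nonneg j)]
          exact hjd
        · have : 0 ≤ 1 - q := by linarith
          positivity
    _ = 2 * d ^ 3 * (1 - q) := by
        rw [Finset.sum_const, Finset.card_range, nsmul_eq_mul]
        ring

end basic

/-- The cubic remainder of the sine. -/
noncomputable def H (y z : ℝ) : ℝ := y * z - Real.sin (y * z)

theorem abs_sub_sin_le (t : ℝ) : |t - Real.sin t| ≤ |t| ^ 3 / 6 := by
  rcases le_total 0 t with h | h
  · have h1 : Real.sin t ≤ t := Real.sin_le h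
    have h2 : t - t ^ 3 / 6 ≤ Real.sin t := Real.sin_ge_sub_cube h
    rw [abs_of_nonneg h, abs_of_nonneg (by linarith)]
    linarith
  · have h' : 0 ≤ -t := by linarith
    have h1 : Real.sin (-t) ≤ -t := Real.sin_le h'
    have h2 : (-t) - (-t) ^ 3 / 6 ≤ Real.sin (-t) := Real.sin_ge_sub_cube h'
    rw [Real.sin_neg] at h1 h2
    rw [abs_of_nonpos h, abs_of_nonpos (by linarith)]
    linarith

theorem H_abs_le (y z : ℝ) : |H y z| ≤ |y| ^ 3 * |z| ^ 3 / 6 := by
  unfold H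
  have := abs_sub_sin_le (y * z)
  rw [abs_mul, mul_pow] at this
  exact this

theorem H_odd (y z : ℝ) : H y (-z) = - H y z := by
  unfold H
  rw [mul_neg, Real.sin_neg]
  ring

theorem H_lip (y z z' D : ℝ) (hz : |z| ≤ D) (hz' : |z'| ≤ D) :
    |H y z - H y z'| ≤ |y| ^ 3 * D ^ 2 * |z - z'| := by
  have hD : 0 ≤ D := (abs_nonneg z).trans hz
  set u := y * z with hu
  set v := y * z' with hv
  have e1 : H y z - H y z' = 2 * ((u - v) / 2 - Real.sin ((u - v) / 2))
      + 2 * Real.sin ((u - v) / 2) * (1 - Real.cos ((u + v) / 2)) := by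
    have h := Real.sin_sub_sin u v
    unfold H
    rw [← hu, ← hv]
    have : u - Real.sin u - (v - Real.sin v) = (u - v) - (Real.sin u - Real.sin v) := by ring
    rw [this, h]
    ring
  have huv : |u - v| = |y| * |z - z'| := by
    rw [hu, hv, ← mul_sub, abs_mul]
  have hzz : |z - z'| ≤ 2 * D := by
    calc |z - z'| ≤ |z| + |z'| := abs_sub _ _
      _ ≤ 2 * D := by linarith
  have hsum : |u + v| ≤ |y| * (2 * D) := by
    rw [hu, hv, ← mul_add, abs_mul]
    refine mul_le_mul_of_nonneg_left ?_ (abs_nonneg _)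
    calc |z + z'| ≤ |z| + |z'| := abs_add_le _ _
      _ ≤ 2 * D := by linarith
  have b1 : |2 * ((u - v) / 2 - Real.sin ((u - v) / 2))| ≤ |y| ^ 3 * |z - z'| * (D ^ 2 / 6) := by
    have h := abs_sub_sin_le ((u - v) / 2)
    rw [abs_mul, abs_two]
    rw [abs_div, abs_two] at h
    have h2 : |u - v| ^ 3 ≤ |y| ^ 3 * |z - z'| * (2 * D) ^ 2 := by
      rw [huv, mul_pow]
      have : |z - z'| ^ 3 ≤ |z - z'| * (2 * D) ^ 2 := by
        have h3 : |z - z'| ^ 2 ≤ (2 * D) ^ 2 := pow_le_pow_left₀ (abs_nonneg _) hzz 2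
        calc |z - z'| ^ 3 = |z - z'| * |z - z'| ^ 2 := by ring
          _ ≤ |z - z'| * (2 * D) ^ 2 := mul_le_mul_of_nonneg_left h3 (abs_nonneg _)
      calc |y| ^ 3 * |z - z'| ^ 3 ≤ |y| ^ 3 * (|z - z'| * (2 * D) ^ 2) :=
            mul_le_mul_of_nonneg_left this (by positivity)
        _ = |y| ^ 3 * |z - z'| * (2 * D) ^ 2 := by ring
    have h4 : (|u - v| / 2) ^ 3 / 6 = |u - v| ^ 3 / 48 := by ring
    rw [h4] at h
    calc 2 * |(u - v) / 2 - Real.sin ((u - v) / 2)| ≤ 2 * (|u - v| ^ 3 / 48) := by linarith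
      _ ≤ 2 * (|y| ^ 3 * |z - z'| * (2 * D) ^ 2 / 48) := by linarith
      _ = |y| ^ 3 * |z - z'| * (D ^ 2 / 6) := by ring
  have b2 : |2 * Real.sin ((u - v) / 2) * (1 - Real.cos ((u + v) / 2))|
      ≤ |y| ^ 3 * |z - z'| * (D ^ 2 / 2) := by
    rw [abs_mul, abs_mul, abs_two]
    have h1 : |Real.sin ((u - v) / 2)| ≤ |u - v| / 2 := by
      have := Real.abs_sin_le_abs (x := (u - v) / 2)
      rwa [abs_div, abs_two] at this
    have h2 : |1 - Real.cos ((u + v) / 2)| ≤ (|y| * (2 * D)) ^ 2 / 8 := by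
      rw [abs_of_nonneg (by linarith [Real.cos_le_one ((u + v) / 2)])]
      have h3 := Real.one_sub_sq_div_two_le_cos (x := (u + v) / 2)
      have h4 : (u + v) ^ 2 ≤ (|y| * (2 * D)) ^ 2 := by
        rw [← sq_abs (u + v)]
        exact pow_le_pow_left₀ (abs_nonneg _) hsum 2
      have h5 : ((u + v) / 2) ^ 2 / 2 = (u + v) ^ 2 / 8 := by ring
      rw [h5] at h3
      linarith
    calc 2 * |Real.sin ((u - v) / 2)| * |1 - Real.cos ((u + v) / 2)|
        ≤ 2 * (|u - v| / 2) * ((|y| * (2 * D)) ^ 2 / 8) := by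
          refine mul_le_mul (by linarith) h2 (abs_nonneg _) (by positivity)
      _ = |y| ^ 3 * |z - z'| * (D ^ 2 / 2) := by
          rw [huv]; ring
  rw [e1]
  calc |2 * ((u - v) / 2 - Real.sin ((u - v) / 2))
      + 2 * Real.sin ((u - v) / 2) * (1 - Real.cos ((u + v) / 2))|
      ≤ |y| ^ 3 * |z - z'| * (D ^ 2 / 6) + |y| ^ 3 * |z - z'| * (D ^ 2 / 2) :=
        (abs_add_le _ _).trans (add_le_add b1 b2)
    _ = |y| ^ 3 * D ^ 2 * |z - z'| * (2 / 3) := by ring
    _ ≤ |y| ^ 3 * D ^ 2 * |z - z'| := by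
        have : 0 ≤ |y| ^ 3 * D ^ 2 * |z - z'| := by positivity
        linarith

section bounds

variable {d : ℕ} {q : ℝ}

theorem im_eq (hd : 2 ≤ d) (hq : 0 ≤ q) (y : ℝ) :
    im d q y = - ∑ j ∈ range d, w d q j * H y ((j : ℝ) - mu d q) := by
  unfold im H
  have : ∀ j ∈ range d, w d q j * (y * ((j : ℝ) - mu d q) - Real.sin (y * ((j : ℝ) - mu d q)))
      = y * (w d q j * ((j : ℝ) - mu d q)) - w d q j * Real.sin (y * ((j : ℝ) - mu d q)) := by
    intro j _; ring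
  rw [Finset.sum_congr rfl this, Finset.sum_sub_distrib, ← Finset.mul_sum, w_centered hd hq]
  ring

theorem im_le_q (hd : 2 ≤ d) (hq : 0 ≤ q) (hq1 : q ≤ 1) (y : ℝ) :
    |im d q y| ≤ (d : ℝ) ^ 4 * q * |y| ^ 3 := by
  rw [im_eq hd hq, abs_neg]
  refine (Finset.abs_sum_le_sum_abs _ _).trans ?_
  calc ∑ j ∈ range d, |w d q j * H y ((j : ℝ) - mu d q)|
      ≤ ∑ j ∈ range d, (|y| ^ 3 * d) * (w d q j * ((j : ℝ) - mu d q) ^ 2) := by
        refine Finset.sum_le_sum (fun j hj => ?_)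
        rw [abs_mul, abs_of_nonneg (w_nonneg hd hq j)]
        have h1 := H_abs_le y ((j : ℝ) - mu d q)
        have h2 := abs_sub_mu_le hd hq hj
        have h3 : |(j : ℝ) - mu d q| ^ 3 ≤ d * ((j : ℝ) - mu d q) ^ 2 := by
          rw [← sq_abs ((j : ℝ) - mu d q)]
          calc |(j : ℝ) - mu d q| ^ 3 = |(j : ℝ) - mu d q| * |(j : ℝ) - mu d q| ^ 2 := by ring
            _ ≤ d * |(j : ℝ) - mu d q| ^ 2 :=
              mul_le_mul_of_nonneg_right h2 (by positivity)
        have h4 : |H y ((j : ℝ) - mu d q)| ≤ |y| ^ 3 * (d * ((j : ℝ) - mu d q) ^ 2) := by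
          have h5 : |y| ^ 3 * |(j : ℝ) - mu d q| ^ 3 ≤ |y| ^ 3 * (d * ((j : ℝ) - mu d q) ^ 2) :=
            mul_le_mul_of_nonneg_left h3 (by positivity)
          have h6 : 0 ≤ |y| ^ 3 * |(j : ℝ) - mu d q| ^ 3 := by positivity
          linarith
        calc w d q j * |H y ((j : ℝ) - mu d q)|
            ≤ w d q j * (|y| ^ 3 * (d * ((j : ℝ) - mu d q) ^ 2)) :=
              mul_le_mul_of_nonneg_left h4 (w_nonneg hd hq j)
          _ = (|y| ^ 3 * d) * (w d q j * ((j : ℝ) - mu d q) ^ 2) := by ring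
    _ = (|y| ^ 3 * d) * ∑ j ∈ range d, (w d q j * ((j : ℝ) - mu d q) ^ 2) := by
        rw [Finset.mul_sum]
    _ ≤ (|y| ^ 3 * d) * ((d : ℝ) ^ 3 * q) :=
        mul_le_mul_of_nonneg_left (second_moment hd hq hq1) (by positivity)
    _ = (d : ℝ) ^ 4 * q * |y| ^ 3 := by ring

theorem H_sum_zero (d : ℕ) (y : ℝ) :
    ∑ j ∈ range d, H y ((j : ℝ) - ((d : ℝ) - 1) / 2) = 0 := by
  have h := Finset.sum_range_reflect (fun j : ℕ => H y ((j : ℝ) - ((d : ℝ) - 1) / 2)) d
  have h2 : ∑ j ∈ range d, H y (((d - 1 - j : ℕ) : ℝ) - ((d : ℝ) - 1) / 2)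
      = - ∑ j ∈ range d, H y ((j : ℝ) - ((d : ℝ) - 1) / 2) := by
    rw [← Finset.sum_neg_distrib]
    refine Finset.sum_congr rfl (fun j hj => ?_)
    rw [← H_odd]
    congr 1
    have hj' : j + 1 ≤ d := Finset.mem_range.mp hj
    have : d - 1 - j = d - (j + 1) := by omega
    rw [this, Nat.cast_sub hj']
    push_cast
    ring
  rw [h2] at h
  linarith

theorem im_le_one_sub (hd : 2 ≤ d) (hq : 0 ≤ q) (hq1 : q ≤ 1) (y : ℝ) :
    |im d q y| ≤ 3 * (d : ℝ) ^ 5 * (1 - q) * |y| ^ 3 := by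
  have hd0 : (0 : ℝ) < d := by positivity
  have h1q : 0 ≤ 1 - q := by linarith
  rw [im_eq hd hq, abs_neg]
  have e : ∑ j ∈ range d, w d q j * H y ((j : ℝ) - mu d q)
      = ∑ j ∈ range d, (w d q j - 1 / d) * H y ((j : ℝ) - mu d q)
        + ∑ j ∈ range d, (1 / (d : ℝ)) * (H y ((j : ℝ) - mu d q)
          - H y ((j : ℝ) - ((d : ℝ) - 1) / 2)) := by
    have h0 := H_sum_zero d y
    simp only [mul_sub, sub_mul, Finset.sum_sub_distrib]
    rw [← Finset.mul_sum (range d) (fun j : ℕ => H y ((j : ℝ) - ((d : ℝ) - 1) / 2)), h0]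
    ring
  rw [e]
  refine (abs_add_le _ _).trans ?_
  have b1 : |∑ j ∈ range d, (w d q j - 1 / d) * H y ((j : ℝ) - mu d q)|
      ≤ (d : ℝ) ^ 5 * (1 - q) * |y| ^ 3 := by
    refine (Finset.abs_sum_le_sum_abs _ _).trans ?_
    calc ∑ j ∈ range d, |(w d q j - 1 / d) * H y ((j : ℝ) - mu d q)|
        ≤ ∑ j ∈ range d, (2 * d * (1 - q)) * (|y| ^ 3 * (d : ℝ) ^ 3 / 6) := by
          refine Finset.sum_le_sum (fun j hj => ?_)
          rw [abs_mul]
          refine mul_le_mul (w_near hd hq hq1 hj) ?_ (abs_nonneg _) (by positivity)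
          refine (H_abs_le _ _).trans ?_
          have := pow_le_pow_left₀ (abs_nonneg _) (abs_sub_mu_le hd hq hj) 3
          have h2 : |y| ^ 3 * |(j : ℝ) - mu d q| ^ 3 ≤ |y| ^ 3 * (d : ℝ) ^ 3 :=
            mul_le_mul_of_nonneg_left this (by positivity)
          linarith
      _ = (1 / 3) * ((d : ℝ) ^ 5 * (1 - q) * |y| ^ 3) := by
          rw [Finset.sum_const, Finset.card_range, nsmul_eq_mul]
          ring
      _ ≤ (d : ℝ) ^ 5 * (1 - q) * |y| ^ 3 := by
          have : 0 ≤ (d : ℝ) ^ 5 * (1 - q) * |y| ^ 3 := by positivity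
          linarith
  have b2 : |∑ j ∈ range d, (1 / (d : ℝ)) * (H y ((j : ℝ) - mu d q)
          - H y ((j : ℝ) - ((d : ℝ) - 1) / 2))| ≤ 2 * (d : ℝ) ^ 5 * (1 - q) * |y| ^ 3 := by
    refine (Finset.abs_sum_le_sum_abs _ _).trans ?_
    calc ∑ j ∈ range d, |(1 / (d : ℝ)) * (H y ((j : ℝ) - mu d q)
          - H y ((j : ℝ) - ((d : ℝ) - 1) / 2))|
        ≤ ∑ j ∈ range d, (1 / (d : ℝ)) * (|y| ^ 3 * (d : ℝ) ^ 2 * (2 * d ^ 3 * (1 - q))) := by
          refine Finset.sum_le_sum (fun j hj => ?_)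
          rw [abs_mul, abs_of_pos (show 0 < 1 / (d : ℝ) by positivity)]
          refine mul_le_mul_of_nonneg_left ?_ (by positivity)
          have hjd : (j : ℝ) + 1 ≤ d := by exact_mod_cast (Finset.mem_range.mp hj)
          have hj0 : (0 : ℝ) ≤ j := Nat.cast_nonneg j
          have hν : |(j : ℝ) - ((d : ℝ) - 1) / 2| ≤ d := by
            rw [abs_le]
            constructor <;> linarith
          refine (H_lip y _ _ d (abs_sub_mu_le hd hq hj) hν).trans ?_
          refine mul_le_mul_of_nonneg_left ?_ (by positivity)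
          have e2 : (j : ℝ) - mu d q - ((j : ℝ) - ((d : ℝ) - 1) / 2)
              = -(mu d q - ((d : ℝ) - 1) / 2) := by ring
          rw [e2, abs_neg]
          exact mu_near hd hq hq1
      _ = 2 * (d : ℝ) ^ 5 * (1 - q) * |y| ^ 3 := by
          rw [Finset.sum_const, Finset.card_range, nsmul_eq_mul]
          field_simp
  linarith

/-- The imaginary part is of third order and degenerates at both ends. -/
theorem im_le (hd : 2 ≤ d) (hq : 0 ≤ q) (hq1 : q ≤ 1) (y : ℝ) :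
    |im d q y| ≤ 6 * (d : ℝ) ^ 5 * (q * (1 - q)) * |y| ^ 3 := by
  have hd1 : (1 : ℝ) ≤ d := by exact_mod_cast (by omega : 1 ≤ d)
  have h1q : 0 ≤ 1 - q := by linarith
  have hy : 0 ≤ |y| ^ 3 := by positivity
  rcases le_total q (1 / 2) with h | h
  · refine (im_le_q hd hq hq1 y).trans ?_
    refine mul_le_mul_of_nonneg_right ?_ hy
    have h45 : (d : ℝ) ^ 4 ≤ (d : ℝ) ^ 5 := pow_le_pow_right₀ hd1 (by norm_num)
    have h2 : (d : ℝ) ^ 4 * q ≤ (d : ℝ) ^ 5 * q := mul_le_mul_of_nonneg_right h45 hq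
    have h3 : 0 ≤ (d : ℝ) ^ 5 * q := by positivity
    nlinarith
  · refine (im_le_one_sub hd hq hq1 y).trans ?_
    refine mul_le_mul_of_nonneg_right ?_ hy
    have h3 : 0 ≤ (d : ℝ) ^ 5 * (1 - q) := by positivity
    nlinarith

theorem re_ge (hd : 2 ≤ d) (hq : 0 ≤ q) (hq1 : q ≤ 1) (y : ℝ) :
    1 - (d : ℝ) ^ 3 * q * y ^ 2 / 2 ≤ re d q y := by
  unfold re
  have h1 : ∑ j ∈ range d, (w d q j - (y ^ 2 / 2) * (w d q j * ((j : ℝ) - mu d q) ^ 2))
      ≤ ∑ j ∈ range d, w d q j * Real.cos (y * ((j : ℝ) - mu d q)) := by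
    refine Finset.sum_le_sum (fun j hj => ?_)
    have h := Real.one_sub_sq_div_two_le_cos (x := y * ((j : ℝ) - mu d q))
    have h2 := mul_le_mul_of_nonneg_left h (w_nonneg hd hq j)
    refine le_trans (le_of_eq ?_) h2
    ring
  refine le_trans ?_ h1
  rw [Finset.sum_sub_distrib, w_sum hd hq, ← Finset.mul_sum]
  have h2 := second_moment hd hq hq1
  have h3 : 0 ≤ y ^ 2 / 2 := by positivity
  have h4 := mul_le_mul_of_nonneg_left h2 h3
  linarith

end bounds

end Pool.Agent.Helper645.Alm
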