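import Pool.Agent.Helper645.AlmA

set_option autoImplicit false

open Finset

namespace Pool.Agent.Helper645.Alm

/-- The centred characteristic function of the truncated geometric distribution. -/
noncomputable def ph (d : ℕ) (q y : ℝ) : ℂ :=
  ∑ j ∈ range d, ((w d q j : ℝ) : ℂ) * Complex.exp (((y * ((j : ℝ) - mu d q) : ℝ) : ℂ) * Complex.I)

theorem ph_re (d : ℕ) (q y : ℝ) : (ph d q y).re = re d q y := by
  unfold ph re
  rw [Complex.re_sum]
  refine Finset.sum_congr rfl (fun j _ => ?_)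
  rw [Complex.re_ofReal_mul, Complex.exp_ofReal_mul_I_re]

theorem ph_im (d : ℕ) (q y : ℝ) : (ph d q y).im = im d q y := by
  unfold ph im
  rw [Complex.im_sum]
  refine Finset.sum_congr rfl (fun j _ => ?_)
  rw [Complex.im_ofReal_mul, Complex.exp_ofReal_mul_I_im]

theorem two_term (q y : ℝ) (hq : 0 ≤ q) (hq1 : q ≤ 1) :
    ‖(1 : ℂ) + (q : ℂ) * Complex.exp ((y : ℂ) * Complex.I)‖ ≤ 1 + q - (q / 2) * (1 - Real.cos y) := by
  have hc1 : Real.cos y ≤ 1 := Real.cos_le_one y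
  have hc2 : -1 ≤ Real.cos y := Real.neg_one_le_cos y
  have hR : 0 ≤ 1 + q - (q / 2) * (1 - Real.cos y) := by nlinarith
  rw [← pow_le_pow_iff_left₀ (norm_nonneg _) hR two_ne_zero, Complex.sq_norm, Complex.normSq_apply]
  have hre : ((1 : ℂ) + (q : ℂ) * Complex.exp ((y : ℂ) * Complex.I)).re = 1 + q * Real.cos y := by
    rw [Complex.add_re, Complex.one_re, Complex.re_ofReal_mul, Complex.exp_ofReal_mul_I_re]
  have him : ((1 : ℂ) + (q : ℂ) * Complex.exp ((y : ℂ) * Complex.I)).im = q * Real.sin y := by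
    rw [Complex.add_im, Complex.one_im, Complex.im_ofReal_mul, Complex.exp_ofReal_mul_I_im, zero_add]
  rw [hre, him]
  have hs : Real.sin y ^ 2 = 1 - Real.cos y ^ 2 := by
    have := Real.sin_sq_add_cos_sq y
    linarith
  have e : (1 + q * Real.cos y) * (1 + q * Real.cos y) + q * Real.sin y * (q * Real.sin y)
      = 1 + 2 * q * Real.cos y + q ^ 2 := by
    have : (1 + q * Real.cos y) * (1 + q * Real.cos y) + q * Real.sin y * (q * Real.sin y)
      = 1 + 2 * q * Real.cos y + q ^ 2 * (Real.cos y ^ 2) + q ^ 2 * (Real.sin y ^ 2) := by ring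
    rw [this, hs]
    ring
  rw [e]
  set c := 1 - Real.cos y with hc
  have hcos : Real.cos y = 1 - c := by rw [hc]; ring
  have hc0 : 0 ≤ c := by rw [hc]; linarith
  rw [hcos]
  have h1 : 0 ≤ q * c * (1 - q) := by
    have : 0 ≤ 1 - q := by linarith
    positivity
  have h2 : 0 ≤ (q * c) ^ 2 := sq_nonneg _
  nlinarith

theorem ph_norm_le {d : ℕ} {q : ℝ} (hd : 2 ≤ d) (hq : 0 ≤ q) (hq1 : q ≤ 1) (y : ℝ) :
    ‖ph d q y‖ ≤ 1 - q / (2 * d) * (1 - Real.cos y) := by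
  have hZ1 := Z_pos (d := d) hd hq
  have hZ2 : Z d q ≤ d := Z_le hq hq1
  have hc1 : Real.cos y ≤ 1 := Real.cos_le_one y
  have e1 : ph d q y = Complex.exp (((-(y * mu d q) : ℝ) : ℂ) * Complex.I) *
      ∑ j ∈ range d, ((w d q j : ℝ) : ℂ) * Complex.exp (((y * (j : ℝ) : ℝ) : ℂ) * Complex.I) := by
    unfold ph
    rw [Finset.mul_sum]
    refine Finset.sum_congr rfl (fun j _ => ?_)
    rw [mul_left_comm, ← Complex.exp_add]
    congr 2
    push_cast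
    ring
  rw [e1, norm_mul, Complex.norm_exp_ofReal_mul_I, one_mul]
  obtain ⟨e, rfl⟩ : ∃ e, d = e + 2 := ⟨d - 2, by omega⟩
  rw [Finset.sum_range_succ', Finset.sum_range_succ']
  have hsum := w_sum (d := e + 2) hd hq
  rw [Finset.sum_range_succ', Finset.sum_range_succ'] at hsum
  have hrest : ‖∑ k ∈ range e, ((w (e + 2) q (k + 1 + 1) : ℝ) : ℂ)
      * Complex.exp (((y * ((k + 1 + 1 : ℕ) : ℝ) : ℝ) : ℂ) * Complex.I)‖
      ≤ ∑ k ∈ range e, w (e + 2) q (k + 1 + 1) := by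
    refine (norm_sum_le _ _).trans (le_of_eq ?_)
    refine Finset.sum_congr rfl (fun k _ => ?_)
    rw [norm_mul, Complex.norm_exp_ofReal_mul_I, mul_one, Complex.norm_real, Real.norm_eq_abs,
      abs_of_nonneg (w_nonneg hd hq _)]
  have h01 : ‖((w (e + 2) q (0 + 1) : ℝ) : ℂ) * Complex.exp (((y * ((0 + 1 : ℕ) : ℝ) : ℝ) : ℂ) * Complex.I)
      + ((w (e + 2) q 0 : ℝ) : ℂ) * Complex.exp (((y * ((0 : ℕ) : ℝ) : ℝ) : ℂ) * Complex.I)‖
      ≤ (1 + q - (q / 2) * (1 - Real.cos y)) / Z (e + 2) q := by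
    have e2 : ((w (e + 2) q (0 + 1) : ℝ) : ℂ) * Complex.exp (((y * ((0 + 1 : ℕ) : ℝ) : ℝ) : ℂ) * Complex.I)
      + ((w (e + 2) q 0 : ℝ) : ℂ) * Complex.exp (((y * ((0 : ℕ) : ℝ) : ℝ) : ℂ) * Complex.I)
      = (((Z (e + 2) q)⁻¹ : ℝ) : ℂ) * ((1 : ℂ) + (q : ℂ) * Complex.exp ((y : ℂ) * Complex.I)) := by
      unfold w
      simp only [zero_add, pow_one, pow_zero, Nat.cast_one, mul_one, Nat.cast_zero, mul_zero,
        Complex.ofReal_zero, zero_mul, Complex.exp_zero, div_eq_mul_inv, one_mul]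
      push_cast
      ring
    rw [e2, norm_mul, Complex.norm_real, Real.norm_eq_abs, abs_of_pos (inv_pos.mpr hZ1),
      div_eq_inv_mul]
    exact mul_le_mul_of_nonneg_left (two_term q y hq hq1) (inv_pos.mpr hZ1).le
  have htri : ‖∑ k ∈ range e, ((w (e + 2) q (k + 1 + 1) : ℝ) : ℂ)
      * Complex.exp (((y * ((k + 1 + 1 : ℕ) : ℝ) : ℝ) : ℂ) * Complex.I)
      + ((w (e + 2) q (0 + 1) : ℝ) : ℂ) * Complex.exp (((y * ((0 + 1 : ℕ) : ℝ) : ℝ) : ℂ) * Complex.I)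
      + ((w (e + 2) q 0 : ℝ) : ℂ) * Complex.exp (((y * ((0 : ℕ) : ℝ) : ℝ) : ℂ) * Complex.I)‖
      ≤ ∑ k ∈ range e, w (e + 2) q (k + 1 + 1)
        + (1 + q - (q / 2) * (1 - Real.cos y)) / Z (e + 2) q := by
    rw [add_assoc]
    exact (norm_add_le _ _).trans (add_le_add hrest h01)
  refine htri.trans ?_
  have hw0 : w (e + 2) q (0 + 1) + w (e + 2) q 0 = (1 + q) / Z (e + 2) q := by
    unfold w
    rw [← add_div]
    congr 1
    simp only [zero_add, pow_one, pow_zero]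
    ring
  have h3 : ∑ k ∈ range e, w (e + 2) q (k + 1 + 1) = 1 - (1 + q) / Z (e + 2) q := by
    rw [← hw0]
    linarith
  rw [h3]
  have h4 : (1 + q - q / 2 * (1 - Real.cos y)) / Z (e + 2) q
      = (1 + q) / Z (e + 2) q - (q / 2 * (1 - Real.cos y)) / Z (e + 2) q := by
    rw [sub_div]
  rw [h4]
  have h5 : q / (2 * ((e + 2 : ℕ) : ℝ)) * (1 - Real.cos y)
      ≤ (q / 2 * (1 - Real.cos y)) / Z (e + 2) q := by
    have h6 : q / (2 * ((e + 2 : ℕ) : ℝ)) * (1 - Real.cos y)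
        = (q / 2 * (1 - Real.cos y)) / ((e + 2 : ℕ) : ℝ) := by
      have : ((e + 2 : ℕ) : ℝ) ≠ 0 := by positivity
      field_simp
    rw [h6]
    refine div_le_div_of_nonneg_left ?_ hZ1 hZ2
    have : 0 ≤ 1 - Real.cos y := by linarith
    positivity
  linarith

theorem ph_norm_le_exp {d : ℕ} {q : ℝ} (hd : 2 ≤ d) (hq : 0 ≤ q) (hq1 : q ≤ 1) (y : ℝ) :
    ‖ph d q y‖ ≤ Real.exp (-(q / (2 * d) * (1 - Real.cos y))) := by
  refine (ph_norm_le hd hq hq1 y).trans ?_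
  have := Real.add_one_le_exp (-(q / (2 * d) * (1 - Real.cos y)))
  linarith

/-- Lower bound for `∑ (1 - cos jθ)`, small angles. -/
theorem trig_small (m : ℕ) (θ : ℝ) (h : (m : ℝ) * |θ| ≤ Real.pi) :
    (2 / (3 * Real.pi ^ 2)) * (m : ℝ) ^ 3 * θ ^ 2 ≤ ∑ j ∈ Icc 1 m, (1 - Real.cos (j * θ)) := by
  have hpi := Real.pi_pos
  have h1 : ∀ j ∈ Icc 1 m, (2 / Real.pi ^ 2) * ((j : ℝ) ^ 2 * θ ^ 2) ≤ 1 - Real.cos (j * θ) := by
    intro j hj
    have hjm : (j : ℝ) ≤ m := by exact_mod_cast (Finset.mem_Icc.mp hj).2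
    have hle : |(j : ℝ) * θ| ≤ Real.pi := by
      rw [abs_mul, abs_of_nonneg (Nat.cast_nonneg j)]
      exact (mul_le_mul_of_nonneg_right hjm (abs_nonneg θ)).trans h
    have h5 := Real.cos_le_one_sub_mul_cos_sq hle
    have h6 : (2 / Real.pi ^ 2) * ((j : ℝ) ^ 2 * θ ^ 2) = 2 / Real.pi ^ 2 * ((j : ℝ) * θ) ^ 2 := by
      ring
    rw [h6]
    linarith
  have h2 : ∑ j ∈ Icc 1 m, (2 / Real.pi ^ 2) * ((j : ℝ) ^ 2 * θ ^ 2)
      ≤ ∑ j ∈ Icc 1 m, (1 - Real.cos (j * θ)) := Finset.sum_le_sum h1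
  refine le_trans ?_ h2
  rw [← Finset.mul_sum, ← Finset.sum_mul]
  have h3 : (m : ℝ) ^ 3 / 3 ≤ ∑ j ∈ Icc 1 m, (j : ℝ) ^ 2 := by
    clear h h1 h2
    induction m with
    | zero => simp
    | succ m ih =>
      rw [Finset.sum_Icc_succ_top (by omega)]
      push_cast
      have : (0 : ℝ) ≤ m := Nat.cast_nonneg m
      nlinarith
  have h4 : 0 ≤ (2 / Real.pi ^ 2) * θ ^ 2 := by positivity
  calc (2 / (3 * Real.pi ^ 2)) * (m : ℝ) ^ 3 * θ ^ 2 = ((2 / Real.pi ^ 2) * θ ^ 2) * ((m : ℝ) ^ 3 / 3) := by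
        field_simp
    _ ≤ ((2 / Real.pi ^ 2) * θ ^ 2) * ∑ j ∈ Icc 1 m, (j : ℝ) ^ 2 := mul_le_mul_of_nonneg_left h3 h4
    _ = (2 / Real.pi ^ 2) * ((∑ j ∈ Icc 1 m, (j : ℝ) ^ 2) * θ ^ 2) := by ring

theorem dirichlet (m : ℕ) (θ : ℝ) :
    2 * Real.sin (θ / 2) * ∑ j ∈ Icc 1 m, Real.cos (j * θ)
      = Real.sin ((m + 1 / 2) * θ) - Real.sin (θ / 2) := by
  induction m with
  | zero =>
    have : ((0 : ℕ) + 1 / 2 : ℝ) * θ = θ / 2 := by push_cast; ring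
    rw [this]
    simp
  | succ m ih =>
    rw [Finset.sum_Icc_succ_top (by omega), mul_add, ih]
    have h := Real.sin_sub_sin (((m + 1 : ℕ) + 1 / 2 : ℝ) * θ) ((m + 1 / 2 : ℝ) * θ)
    have e1 : ((((m + 1 : ℕ) + 1 / 2 : ℝ) * θ) - ((m + 1 / 2 : ℝ) * θ)) / 2 = θ / 2 := by
      push_cast; ring
    have e2 : ((((m + 1 : ℕ) + 1 / 2 : ℝ) * θ) + ((m + 1 / 2 : ℝ) * θ)) / 2 = ((m + 1 : ℕ) : ℝ) * θ := by
      push_cast; ring
    rw [e1, e2] at h
    linarith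

/-- Lower bound for `∑ (1 - cos jθ)`, large angles. -/
theorem trig_large (m : ℕ) (θ : ℝ) (h : Real.pi ≤ (m : ℝ) * |θ|) (h2 : |θ| ≤ Real.pi) :
    (m : ℝ) / 2 ≤ ∑ j ∈ Icc 1 m, (1 - Real.cos (j * θ)) := by
  have hpi := Real.pi_pos
  have hcos : ∀ j ∈ Icc 1 m, (1 - Real.cos (j * θ)) = 1 - Real.cos (j * |θ|) := by
    intro j _
    rcases abs_choice θ with h | h
    · rw [h]
    · rw [h, mul_neg, Real.cos_neg]
  rw [Finset.sum_congr rfl hcos]
  set t := |θ| with ht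
  have ht0 : 0 < t := by
    rcases (abs_nonneg θ).eq_or_lt with h0 | h0
    · rw [← ht] at h0
      rw [← h0, mul_zero] at h
      exact absurd h (not_le.mpr hpi)
    · exact h0
  have hs : t / Real.pi ≤ Real.sin (t / 2) := by
    have := Real.mul_le_sin (x := t / 2) (by positivity) (by linarith)
    have e : 2 / Real.pi * (t / 2) = t / Real.pi := by ring
    rwa [e] at this
  have hs0 : 0 < Real.sin (t / 2) := lt_of_lt_of_le (by positivity) hs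
  have hms : 1 ≤ (m : ℝ) * Real.sin (t / 2) := by
    have h3 : (m : ℝ) * (t / Real.pi) ≤ (m : ℝ) * Real.sin (t / 2) :=
      mul_le_mul_of_nonneg_left hs (Nat.cast_nonneg m)
    have h4 : 1 ≤ (m : ℝ) * (t / Real.pi) := by
      rw [← mul_div_assoc, le_div_iff₀ hpi]
      linarith
    linarith
  have hd := dirichlet m t
  have hsum : ∑ j ∈ Icc 1 m, Real.cos (j * t) ≤ (m : ℝ) / 2 := by
    have h5 : Real.sin ((m + 1 / 2) * t) ≤ 1 := Real.sin_le_one _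
    have h6 : 2 * Real.sin (t / 2) * ∑ j ∈ Icc 1 m, Real.cos (j * t)
        ≤ 2 * Real.sin (t / 2) * ((m : ℝ) / 2) := by
      rw [hd]
      nlinarith
    exact le_of_mul_le_mul_left h6 (by positivity)
  rw [Finset.sum_sub_distrib]
  simp only [Finset.sum_const, Nat.card_Icc, nsmul_eq_mul, mul_one]
  have : ((m + 1 - 1 : ℕ) : ℝ) = m := by simp
  rw [this]
  linarith

end Pool.Agent.Helper645.Alm
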