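import Pool.Agent.Helper645.AlmB

set_option autoImplicit false

open Finset

namespace Pool.Agent.Helper645.Alm

/-- Comparison of a product of complex numbers with the product of real parts. -/
theorem prod_compare (s : Finset ℕ) (φ : ℕ → ℂ) (β e : ℕ → ℝ)
    (h1 : ∀ i ∈ s, ‖φ i‖ ≤ Real.exp (-(β i))) (h2 : ∀ i ∈ s, Real.exp (β i) ≤ 2)
    (h3 : ∀ i ∈ s, |(φ i).im| ≤ e i) :
    ‖(∏ i ∈ s, φ i) - ((∏ i ∈ s, (φ i).re : ℝ) : ℂ)‖
      ≤ 2 * (∑ i ∈ s, e i) * Real.exp (-(∑ i ∈ s, β i)) := by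
  classical
  induction s using Finset.induction_on with
  | empty => simp
  | insert a s ha ih =>
    have ih' := ih (fun i hi => h1 i (Finset.mem_insert_of_mem hi))
      (fun i hi => h2 i (Finset.mem_insert_of_mem hi))
      (fun i hi => h3 i (Finset.mem_insert_of_mem hi))
    have ha1 := h1 a (Finset.mem_insert_self a s)
    have ha2 := h2 a (Finset.mem_insert_self a s)
    have ha3 := h3 a (Finset.mem_insert_self a s)
    rw [Finset.prod_insert ha, Finset.prod_insert ha, Finset.sum_insert ha, Finset.sum_insert ha]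
    have hA : ‖∏ i ∈ s, φ i‖ ≤ Real.exp (-(∑ i ∈ s, β i)) := by
      rw [norm_prod, ← Finset.sum_neg_distrib, Real.exp_sum]
      exact Finset.prod_le_prod (fun i _ => norm_nonneg _)
        (fun i hi => h1 i (Finset.mem_insert_of_mem hi))
    have hre : ‖((φ a).re : ℂ)‖ ≤ Real.exp (-(β a)) := by
      rw [Complex.norm_real, Real.norm_eq_abs]
      exact (Complex.abs_re_le_norm _).trans ha1
    have him : ‖φ a - ((φ a).re : ℂ)‖ ≤ e a := by
      have : φ a - ((φ a).re : ℂ) = ((φ a).im : ℂ) * Complex.I := by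
        have := Complex.re_add_im (φ a)
        linear_combination (-1 : ℂ) * this
      rw [this, norm_mul, Complex.norm_I, mul_one, Complex.norm_real, Real.norm_eq_abs]
      exact ha3
    have hea : 0 ≤ e a := (abs_nonneg _).trans ha3
    set A := ∏ i ∈ s, φ i with hAdef
    set B := ∏ i ∈ s, (φ i).re with hBdef
    set S := ∑ i ∈ s, β i with hS
    have split : φ a * A - (((φ a).re * B : ℝ) : ℂ)
        = (φ a - ((φ a).re : ℂ)) * A + ((φ a).re : ℂ) * (A - (B : ℂ)) := by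
      push_cast
      ring
    rw [split]
    refine (norm_add_le _ _).trans ?_
    rw [norm_mul, norm_mul]
    have hexp : Real.exp (-(β a + S)) = Real.exp (-(β a)) * Real.exp (-S) := by
      rw [← Real.exp_add]; congr 1; ring
    have hone : 1 ≤ 2 * Real.exp (-(β a)) := by
      have hpos := Real.exp_pos (-(β a))
      have : Real.exp (β a) * Real.exp (-(β a)) = 1 := by
        rw [← Real.exp_add]; simp
      nlinarith
    have t1 : ‖φ a - ((φ a).re : ℂ)‖ * ‖A‖ ≤ e a * Real.exp (-S) :=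
      mul_le_mul him hA (norm_nonneg _) hea
    have t2 : ‖((φ a).re : ℂ)‖ * ‖A - (B : ℂ)‖
        ≤ Real.exp (-(β a)) * (2 * (∑ i ∈ s, e i) * Real.exp (-S)) :=
      mul_le_mul hre ih' (norm_nonneg _) (Real.exp_pos _).le
    have t3 : e a * Real.exp (-S) ≤ 2 * e a * (Real.exp (-(β a)) * Real.exp (-S)) := by
      have h0 : 0 ≤ e a * Real.exp (-S) := by positivity
      have := mul_le_mul_of_nonneg_left hone h0
      nlinarith
    rw [hexp]
    calc ‖φ a - ((φ a).re : ℂ)‖ * ‖A‖ + ‖((φ a).re : ℂ)‖ * ‖A - (B : ℂ)‖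
        ≤ e a * Real.exp (-S) + Real.exp (-(β a)) * (2 * (∑ i ∈ s, e i) * Real.exp (-S)) :=
          add_le_add t1 t2
      _ ≤ 2 * e a * (Real.exp (-(β a)) * Real.exp (-S))
          + Real.exp (-(β a)) * (2 * (∑ i ∈ s, e i) * Real.exp (-S)) := by linarith
      _ = 2 * (e a + ∑ i ∈ s, e i) * (Real.exp (-β a) * Real.exp (-S)) := by ring

theorem sum_pow_geom (r n : ℕ) (x : ℝ) (hx0 : 0 ≤ x) (hx1 : x < 1) :
    ∑ i ∈ Icc 1 n, (i : ℝ) ^ r * x ^ i ≤ (r.factorial : ℝ) / (1 - x) ^ (r + 1) := by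
  have hn : ‖x‖ < 1 := by rw [Real.norm_eq_abs, abs_of_nonneg hx0]; exact hx1
  have hs := summable_choose_mul_geometric_of_norm_lt_one r hn
  have ht := tsum_choose_mul_geometric_of_norm_lt_one r hn
  have h1 : ∀ i ∈ Icc 1 n, (i : ℝ) ^ r * x ^ i ≤ (r.factorial : ℝ) * (((i + r).choose r : ℕ) * x ^ i) := by
    intro i _
    have h2 : (i + 1) ^ r ≤ (i + 1).ascFactorial r := Nat.pow_succ_le_ascFactorial _ _
    rw [Nat.ascFactorial_eq_factorial_mul_choose] at h2
    have h3 : i ^ r ≤ r.factorial * (i + r).choose r :=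
      (Nat.pow_le_pow_left (Nat.le_succ i) r).trans h2
    have h4 : (i : ℝ) ^ r ≤ (r.factorial : ℝ) * ((i + r).choose r : ℕ) := by exact_mod_cast h3
    rw [← mul_assoc]
    exact mul_le_mul_of_nonneg_right h4 (pow_nonneg hx0 _)
  calc ∑ i ∈ Icc 1 n, (i : ℝ) ^ r * x ^ i
      ≤ ∑ i ∈ Icc 1 n, (r.factorial : ℝ) * (((i + r).choose r : ℕ) * x ^ i) := Finset.sum_le_sum h1
    _ = (r.factorial : ℝ) * ∑ i ∈ Icc 1 n, (((i + r).choose r : ℕ) * x ^ i) := by rw [Finset.mul_sum]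
    _ ≤ (r.factorial : ℝ) * ∑' i : ℕ, (((i + r).choose r : ℕ) * x ^ i) := by
        refine mul_le_mul_of_nonneg_left ?_ (Nat.cast_nonneg _)
        exact hs.sum_le_tsum _ (fun i _ => by positivity)
    _ = (r.factorial : ℝ) / (1 - x) ^ (r + 1) := by
        rw [ht]; ring

/-- The numerical hypotheses on the scale `m` attached to `n` and `x`. -/
structure Scale (n m : ℕ) (x : ℝ) : Prop where
  hx0 : 1 / 2 ≤ x
  hx1 : x < 1
  hm : 1 ≤ m
  hmn : m ≤ n
  hme : (m : ℝ) * (1 - x) ≤ 1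
  hcase : m = n ∨ 1 ≤ 2 * (m : ℝ) * (1 - x)

namespace Scale

variable {n m : ℕ} {x : ℝ}

theorem sum_le (h : Scale n m x) (r : ℕ) :
    ∑ i ∈ Icc 1 n, (i : ℝ) ^ r * x ^ i ≤ (r.factorial : ℝ) * 2 ^ (r + 1) * (m : ℝ) ^ (r + 1) := by
  have hx0 : 0 ≤ x := by linarith [h.hx0]
  have hx1 := h.hx1
  rcases h.hcase with hc | hc
  · subst hc
    calc ∑ i ∈ Icc 1 m, (i : ℝ) ^ r * x ^ i ≤ ∑ i ∈ Icc 1 m, (m : ℝ) ^ r * 1 := by
          refine Finset.sum_le_sum (fun i hi => ?_)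
          have him : (i : ℝ) ≤ m := by exact_mod_cast (Finset.mem_Icc.mp hi).2
          exact mul_le_mul (pow_le_pow_left₀ (Nat.cast_nonneg i) him r)
            (pow_le_one₀ hx0 hx1.le) (pow_nonneg hx0 _) (by positivity)
      _ = (m : ℝ) ^ (r + 1) := by
          rw [Finset.sum_const, Nat.card_Icc, nsmul_eq_mul, Nat.add_sub_cancel]
          ring
      _ ≤ (r.factorial : ℝ) * 2 ^ (r + 1) * (m : ℝ) ^ (r + 1) := by
          have h1 : (1 : ℝ) ≤ (r.factorial : ℝ) := by exact_mod_cast Nat.factorial_pos r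
          have h2 : (1 : ℝ) ≤ 2 ^ (r + 1) := one_le_pow₀ (by norm_num)
          have h3 : (1 : ℝ) ≤ (r.factorial : ℝ) * 2 ^ (r + 1) := one_le_mul_of_one_le_of_one_le h1 h2
          have h4 : (0 : ℝ) ≤ (m : ℝ) ^ (r + 1) := by positivity
          nlinarith
  · refine (sum_pow_geom r n x hx0 hx1).trans ?_
    have he : 0 < 1 - x := by linarith
    rw [div_le_iff₀ (by positivity), mul_assoc, mul_assoc]
    have h1 : (1 : ℝ) ≤ 2 ^ (r + 1) * ((m : ℝ) ^ (r + 1) * (1 - x) ^ (r + 1)) := by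
      rw [← mul_pow, ← mul_pow, ← mul_assoc]
      exact one_le_pow₀ hc
    have h2 : (0 : ℝ) ≤ (r.factorial : ℝ) := Nat.cast_nonneg _
    nlinarith

theorem sq_le (h : Scale n m x) {i : ℕ} (hi : i ∈ Icc 1 n) :
    (i : ℝ) ^ 2 * x ^ i ≤ 8 * (m : ℝ) ^ 2 := by
  have hx0 : 0 ≤ x := by linarith [h.hx0]
  have hx1 := h.hx1
  rcases h.hcase with hc | hc
  · subst hc
    have him : (i : ℝ) ≤ m := by exact_mod_cast (Finset.mem_Icc.mp hi).2
    calc (i : ℝ) ^ 2 * x ^ i ≤ (m : ℝ) ^ 2 * 1 :=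
          mul_le_mul (pow_le_pow_left₀ (Nat.cast_nonneg i) him 2)
            (pow_le_one₀ hx0 hx1.le) (pow_nonneg hx0 _) (by positivity)
      _ ≤ 8 * (m : ℝ) ^ 2 := by nlinarith [sq_nonneg (m : ℝ)]
  · have he : 0 < 1 - x := by linarith
    set t := (i : ℝ) * (1 - x) with ht
    have ht0 : 0 ≤ t := by positivity
    have hxe : x ^ i ≤ Real.exp (-t) := by
      have h1 : x ≤ Real.exp (-(1 - x)) := by
        have := Real.add_one_le_exp (-(1 - x))
        linarith
      calc x ^ i ≤ Real.exp (-(1 - x)) ^ i := pow_le_pow_left₀ hx0 h1 i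
        _ = Real.exp (-t) := by
          rw [← Real.exp_nat_mul]
          congr 1
          rw [ht]
          ring
    have h2 : t ^ 2 * Real.exp (-t) ≤ 2 := by
      have h3 := Real.quadratic_le_exp_of_nonneg ht0
      have h4 : Real.exp t * Real.exp (-t) = 1 := by rw [← Real.exp_add]; simp
      have h5 := Real.exp_pos (-t)
      nlinarith
    have h3 : (i : ℝ) ^ 2 * x ^ i * (1 - x) ^ 2 ≤ 2 := by
      calc (i : ℝ) ^ 2 * x ^ i * (1 - x) ^ 2 = t ^ 2 * x ^ i := by rw [ht]; ring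
        _ ≤ t ^ 2 * Real.exp (-t) := mul_le_mul_of_nonneg_left hxe (by positivity)
        _ ≤ 2 := h2
    have h4 : 1 ≤ 4 * (m : ℝ) ^ 2 * (1 - x) ^ 2 := by
      have := one_le_pow₀ (n := 2) hc
      nlinarith
    have h5 : 0 < (1 - x) ^ 2 := by positivity
    have h6 : (i : ℝ) ^ 2 * x ^ i * (1 - x) ^ 2 ≤ 8 * (m : ℝ) ^ 2 * (1 - x) ^ 2 := by linarith
    exact le_of_mul_le_mul_right h6 h5

theorem pow_ge (h : Scale n m x) {j : ℕ} (hj : j ≤ m) : Real.exp (-2) ≤ x ^ j := by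
  have hx0 : 0 < x := by linarith [h.hx0]
  have hx1 := h.hx1
  have h1 : Real.exp (-(2 * (1 - x))) ≤ x := by
    have h2 := Real.add_one_le_exp (2 * (1 - x))
    have h3 : Real.exp (2 * (1 - x)) * Real.exp (-(2 * (1 - x))) = 1 := by
      rw [← Real.exp_add]; simp
    have h4 := Real.exp_pos (-(2 * (1 - x)))
    have h5 : 1 ≤ x * Real.exp (2 * (1 - x)) := by
      have h6 : x * (2 * (1 - x) + 1) ≤ x * Real.exp (2 * (1 - x)) :=
        mul_le_mul_of_nonneg_left h2 hx0.le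
      have h7 := h.hx0
      nlinarith
    nlinarith
  calc Real.exp (-2) ≤ Real.exp (-(2 * (1 - x))) ^ j := by
        rw [← Real.exp_nat_mul]
        apply Real.exp_le_exp.mpr
        have h2 : (j : ℝ) ≤ m := by exact_mod_cast hj
        have h3 := h.hme
        have h4 : (j : ℝ) * (1 - x) ≤ m * (1 - x) :=
          mul_le_mul_of_nonneg_right h2 (by linarith)
        linarith
    _ ≤ x ^ j := pow_le_pow_left₀ (Real.exp_pos _).le h1 j

end Scale

end Pool.Agent.Helper645.Alm
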