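import Pool.Agent.Helper645.AlmC

set_option autoImplicit false

open Finset

namespace Pool.Agent.Helper645.Alm

/-- The centred characteristic function of the whole sum. -/
noncomputable def T (d n : ℕ) (x θ : ℝ) : ℂ := ∏ i ∈ Icc 1 n, ph d (x ^ i) (i * θ)

/-- The product of the real parts. -/
noncomputable def A (d n : ℕ) (x θ : ℝ) : ℝ := ∏ i ∈ Icc 1 n, (ph d (x ^ i) (i * θ)).re

/-- The decay exponents. -/
noncomputable def be (d : ℕ) (x θ : ℝ) (i : ℕ) : ℝ := x ^ i / (2 * d) * (1 - Real.cos (i * θ))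

/-- Decay constant. -/
noncomputable def κ (d : ℕ) : ℝ := Real.exp (-2) / (2 * d) * (2 / (3 * Real.pi ^ 2))

/-- Size of the central window. -/
noncomputable def η (d : ℕ) : ℝ := 1 / (3 * (d : ℝ) ^ 2)

theorem κ_pos {d : ℕ} (hd : 2 ≤ d) : 0 < κ d := by
  unfold κ
  have := Real.pi_pos
  have := Real.exp_pos (-2)
  positivity

theorem η_pos {d : ℕ} (hd : 2 ≤ d) : 0 < η d := by
  unfold η
  positivity

theorem η_le {d : ℕ} (hd : 2 ≤ d) : η d ≤ 1 / 12 := by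
  unfold η
  have h : (2 : ℝ) ≤ d := by exact_mod_cast hd
  rw [div_le_div_iff₀ (by positivity) (by norm_num)]
  nlinarith

theorem κ_le {d : ℕ} (hd : 2 ≤ d) : κ d ≤ 1 := by
  unfold κ
  have h : (2 : ℝ) ≤ d := by exact_mod_cast hd
  have hpi := Real.pi_gt_three
  have h1 : Real.exp (-2) ≤ 1 := by
    rw [Real.exp_le_one_iff]; norm_num
  have h2 : Real.exp (-2) / (2 * d) ≤ 1 := by
    rw [div_le_one (by positivity)]
    linarith
  have h3 : 2 / (3 * Real.pi ^ 2) ≤ 1 := by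
    rw [div_le_one (by positivity)]
    nlinarith
  have h4 : 0 ≤ 2 / (3 * Real.pi ^ 2) := by positivity
  have h5 : 0 ≤ Real.exp (-2) / (2 * d) := by
    have := Real.exp_pos (-2)
    positivity
  calc Real.exp (-2) / (2 * d) * (2 / (3 * Real.pi ^ 2)) ≤ 1 * 1 := mul_le_mul h2 h3 h4 (by norm_num)
    _ = 1 := one_mul 1

section

variable {d n m : ℕ} {x : ℝ}

theorem be_nonneg (h : Scale n m x) (θ : ℝ) (i : ℕ) : 0 ≤ be d x θ i := by
  unfold be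
  have hx0 : 0 ≤ x := by linarith [h.hx0]
  have := Real.cos_le_one (i * θ)
  have : 0 ≤ 1 - Real.cos (i * θ) := by linarith
  positivity

theorem be_exp_le (hd : 2 ≤ d) (h : Scale n m x) (θ : ℝ) (i : ℕ) : Real.exp (be d x θ i) ≤ 2 := by
  have hx0 : 0 ≤ x := by linarith [h.hx0]
  have hx1 : x ^ i ≤ 1 := pow_le_one₀ hx0 h.hx1.le
  have hd' : (2 : ℝ) ≤ d := by exact_mod_cast hd
  have h1 : be d x θ i ≤ 1 / 2 := by
    unfold be
    have h2 := Real.neg_one_le_cos (i * θ)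
    have h3 := Real.cos_le_one (i * θ)
    have h4 : x ^ i / (2 * d) ≤ 1 / 4 := by
      rw [div_le_div_iff₀ (by positivity) (by norm_num)]
      linarith
    have h5 : 0 ≤ x ^ i / (2 * d) := by positivity
    nlinarith
  have h2 : Real.exp (be d x θ i) ≤ Real.exp (1 / 2) := Real.exp_le_exp.mpr h1
  have h3 : Real.exp (1 / 2 : ℝ) ≤ 2 := by
    have h4 : Real.exp (1 / 2 : ℝ) ^ 2 = Real.exp 1 := by
      rw [← Real.exp_nat_mul]
      norm_num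
    have h5 := Real.exp_one_lt_d9
    have h6 := Real.exp_pos (1 / 2 : ℝ)
    nlinarith
  linarith

theorem be_sum_ge (hd : 2 ≤ d) (h : Scale n m x) (θ : ℝ) :
    Real.exp (-2) / (2 * d) * ∑ j ∈ Icc 1 m, (1 - Real.cos (j * θ)) ≤ ∑ i ∈ Icc 1 n, be d x θ i := by
  have h1 : ∑ i ∈ Icc 1 m, be d x θ i ≤ ∑ i ∈ Icc 1 n, be d x θ i := by
    refine Finset.sum_le_sum_of_subset_of_nonneg ?_ (fun i _ _ => be_nonneg h θ i)
    exact Finset.Icc_subset_Icc_right h.hmn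
  refine le_trans ?_ h1
  rw [Finset.mul_sum]
  refine Finset.sum_le_sum (fun j hj => ?_)
  unfold be
  have h2 := h.pow_ge (Finset.mem_Icc.mp hj).2
  have h3 := Real.cos_le_one (j * θ)
  have hd0 : (0 : ℝ) < d := by positivity
  refine mul_le_mul_of_nonneg_right ?_ (by linarith)
  exact div_le_div_of_nonneg_right h2 (by positivity)

theorem be_sum_small (hd : 2 ≤ d) (h : Scale n m x) (θ : ℝ) (hθ : (m : ℝ) * |θ| ≤ Real.pi) :
    κ d * (m : ℝ) ^ 3 * θ ^ 2 ≤ ∑ i ∈ Icc 1 n, be d x θ i := by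
  refine le_trans ?_ (be_sum_ge hd h θ)
  have h1 := trig_small m θ hθ
  have h2 : 0 ≤ Real.exp (-2) / (2 * d) := by
    have := Real.exp_pos (-2)
    positivity
  have h3 := mul_le_mul_of_nonneg_left h1 h2
  refine le_trans (le_of_eq ?_) h3
  unfold κ
  ring

theorem be_sum_large (hd : 2 ≤ d) (h : Scale n m x) (θ : ℝ) (hθ : η d ≤ (m : ℝ) * |θ|)
    (hθ2 : |θ| ≤ Real.pi) :
    κ d * η d ^ 2 * m ≤ ∑ i ∈ Icc 1 n, be d x θ i := by
  have hη := η_pos hd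
  have hη2 := η_le hd
  have hκ := κ_pos hd
  have hm0 : (0 : ℝ) ≤ m := Nat.cast_nonneg m
  rcases le_total ((m : ℝ) * |θ|) Real.pi with hc | hc
  · refine le_trans ?_ (be_sum_small hd h θ hc)
    have h1 : η d ^ 2 ≤ ((m : ℝ) * |θ|) ^ 2 := pow_le_pow_left₀ hη.le hθ 2
    have h2 : κ d * (m : ℝ) ^ 3 * θ ^ 2 = κ d * ((m : ℝ) * |θ|) ^ 2 * m := by
      rw [mul_pow, sq_abs]; ring
    rw [h2]
    have h3 : κ d * η d ^ 2 ≤ κ d * ((m : ℝ) * |θ|) ^ 2 := mul_le_mul_of_nonneg_left h1 hκ.le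
    exact mul_le_mul_of_nonneg_right h3 hm0
  · refine le_trans ?_ (be_sum_ge hd h θ)
    have h1 := trig_large m θ hc hθ2
    have h2 : 0 ≤ Real.exp (-2) / (2 * d) := by
      have := Real.exp_pos (-2)
      positivity
    have h3 := mul_le_mul_of_nonneg_left h1 h2
    refine le_trans ?_ h3
    have hpi := Real.pi_gt_three
    have h4 : 2 / (3 * Real.pi ^ 2) ≤ 1 / 2 := by
      rw [div_le_div_iff₀ (by positivity) (by norm_num)]
      nlinarith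
    have h5 : η d ^ 2 ≤ 1 := by nlinarith
    have h6 : κ d * η d ^ 2 ≤ Real.exp (-2) / (2 * d) * (1 / 2) := by
      calc κ d * η d ^ 2 ≤ κ d * 1 := mul_le_mul_of_nonneg_left h5 hκ.le
        _ = Real.exp (-2) / (2 * d) * (2 / (3 * Real.pi ^ 2)) := by rw [mul_one]; rfl
        _ ≤ Real.exp (-2) / (2 * d) * (1 / 2) := mul_le_mul_of_nonneg_left h4 h2
    calc κ d * η d ^ 2 * m ≤ Real.exp (-2) / (2 * d) * (1 / 2) * m :=
          mul_le_mul_of_nonneg_right h6 hm0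
      _ = Real.exp (-2) / (2 * d) * (m / 2) := by ring

theorem T_norm_le (hd : 2 ≤ d) (h : Scale n m x) (θ : ℝ) :
    ‖T d n x θ‖ ≤ Real.exp (-(∑ i ∈ Icc 1 n, be d x θ i)) := by
  have hx0 : 0 ≤ x := by linarith [h.hx0]
  unfold T
  rw [norm_prod, ← Finset.sum_neg_distrib, Real.exp_sum]
  refine Finset.prod_le_prod (fun i _ => norm_nonneg _) (fun i _ => ?_)
  exact ph_norm_le_exp hd (pow_nonneg hx0 i) (pow_le_one₀ hx0 h.hx1.le) _

/-- Main comparison between the characteristic function and the product of real parts. -/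
theorem T_compare (hd : 2 ≤ d) (h : Scale n m x) (θ : ℝ) (hθ : (m : ℝ) * |θ| ≤ Real.pi) :
    ‖T d n x θ - (A d n x θ : ℂ)‖
      ≤ 9216 * (d : ℝ) ^ 5 * (1 - x) * (m : ℝ) ^ 5 * |θ| ^ 3 * Real.exp (-(κ d * (m : ℝ) ^ 3 * θ ^ 2)) := by
  have hx0 : 0 ≤ x := by linarith [h.hx0]
  have hx1 := h.hx1
  have h1x : 0 ≤ 1 - x := by linarith
  have h1 := prod_compare (Icc 1 n) (fun i => ph d (x ^ i) (i * θ)) (be d x θ)
    (fun i => 6 * (d : ℝ) ^ 5 * (x ^ i * (1 - x ^ i)) * |(i : ℝ) * θ| ^ 3)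
    (fun i _ => ph_norm_le_exp hd (pow_nonneg hx0 i) (pow_le_one₀ hx0 hx1.le) _)
    (fun i _ => be_exp_le hd h θ i)
    (fun i _ => by
      rw [ph_im]
      exact im_le hd (pow_nonneg hx0 i) (pow_le_one₀ hx0 hx1.le) _)
  refine (show ‖T d n x θ - (A d n x θ : ℂ)‖ ≤ _ from h1).trans ?_
  have h2 : Real.exp (-(∑ i ∈ Icc 1 n, be d x θ i)) ≤ Real.exp (-(κ d * (m : ℝ) ^ 3 * θ ^ 2)) := by
    apply Real.exp_le_exp.mpr
    have := be_sum_small hd h θ hθ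
    linarith
  have h3 : ∑ i ∈ Icc 1 n, 6 * (d : ℝ) ^ 5 * (x ^ i * (1 - x ^ i)) * |(i : ℝ) * θ| ^ 3
      ≤ 6 * (d : ℝ) ^ 5 * (1 - x) * |θ| ^ 3 * (768 * (m : ℝ) ^ 5) := by
    have h4 := h.sum_le 4
    have h5 : ((Nat.factorial 4 : ℕ) : ℝ) * 2 ^ (4 + 1) * (m : ℝ) ^ (4 + 1) = 768 * (m : ℝ) ^ 5 := by
      norm_num [Nat.factorial]
    rw [h5] at h4
    calc ∑ i ∈ Icc 1 n, 6 * (d : ℝ) ^ 5 * (x ^ i * (1 - x ^ i)) * |(i : ℝ) * θ| ^ 3
        ≤ ∑ i ∈ Icc 1 n, (6 * (d : ℝ) ^ 5 * (1 - x) * |θ| ^ 3) * ((i : ℝ) ^ 4 * x ^ i) := by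
          refine Finset.sum_le_sum (fun i _ => ?_)
          have hb : 1 - x ^ i ≤ i * (1 - x) := by
            have := one_add_mul_le_pow (show (-2 : ℝ) ≤ x - 1 by linarith) i
            have e : (1 + (x - 1)) ^ i = x ^ i := by ring_nf
            rw [e] at this
            linarith
          rw [abs_mul, mul_pow, abs_of_nonneg (Nat.cast_nonneg i : (0 : ℝ) ≤ i)]
          have hxi : 0 ≤ x ^ i := pow_nonneg hx0 i
          have h6 : x ^ i * (1 - x ^ i) ≤ x ^ i * (i * (1 - x)) := mul_le_mul_of_nonneg_left hb hxi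
          have h7 : 0 ≤ 6 * (d : ℝ) ^ 5 * ((i : ℝ) ^ 3 * |θ| ^ 3) := by positivity
          have h8 := mul_le_mul_of_nonneg_left h6 h7
          calc 6 * (d : ℝ) ^ 5 * (x ^ i * (1 - x ^ i)) * ((i : ℝ) ^ 3 * |θ| ^ 3)
              = 6 * (d : ℝ) ^ 5 * ((i : ℝ) ^ 3 * |θ| ^ 3) * (x ^ i * (1 - x ^ i)) := by ring
            _ ≤ 6 * (d : ℝ) ^ 5 * ((i : ℝ) ^ 3 * |θ| ^ 3) * (x ^ i * (i * (1 - x))) := h8
            _ = (6 * (d : ℝ) ^ 5 * (1 - x) * |θ| ^ 3) * ((i : ℝ) ^ 4 * x ^ i) := by ring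
      _ = (6 * (d : ℝ) ^ 5 * (1 - x) * |θ| ^ 3) * ∑ i ∈ Icc 1 n, ((i : ℝ) ^ 4 * x ^ i) := by
          rw [Finset.mul_sum]
      _ ≤ (6 * (d : ℝ) ^ 5 * (1 - x) * |θ| ^ 3) * (768 * (m : ℝ) ^ 5) :=
          mul_le_mul_of_nonneg_left h4 (by positivity)
  calc 2 * (∑ i ∈ Icc 1 n, 6 * (d : ℝ) ^ 5 * (x ^ i * (1 - x ^ i)) * |(i : ℝ) * θ| ^ 3)
        * Real.exp (-(∑ i ∈ Icc 1 n, be d x θ i))
      ≤ 2 * (6 * (d : ℝ) ^ 5 * (1 - x) * |θ| ^ 3 * (768 * (m : ℝ) ^ 5))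
        * Real.exp (-(κ d * (m : ℝ) ^ 3 * θ ^ 2)) := by
        refine mul_le_mul (by linarith) h2 (Real.exp_pos _).le (by positivity)
    _ = _ := by ring

theorem exp_le_one_sub {t : ℝ} (h0 : 0 ≤ t) (h1 : t ≤ 1 / 2) : Real.exp (-(2 * t)) ≤ 1 - t := by
  have h2 := Real.add_one_le_exp (2 * t)
  have h3 : Real.exp (2 * t) * Real.exp (-(2 * t)) = 1 := by rw [← Real.exp_add]; simp
  have h4 := Real.exp_pos (-(2 * t))
  have h5 : 1 ≤ (1 - t) * Real.exp (2 * t) := by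
    have h6 : (1 - t) * (2 * t + 1) ≤ (1 - t) * Real.exp (2 * t) :=
      mul_le_mul_of_nonneg_left h2 (by linarith)
    nlinarith
  nlinarith

theorem A_ge (hd : 2 ≤ d) (h : Scale n m x) (θ : ℝ) (hθ : (m : ℝ) * |θ| ≤ η d) :
    Real.exp (-(16 * (d : ℝ) ^ 3 * (m : ℝ) ^ 3 * θ ^ 2)) ≤ A d n x θ := by
  have hx0 : 0 ≤ x := by linarith [h.hx0]
  have hx1 := h.hx1
  have hd' : (2 : ℝ) ≤ d := by exact_mod_cast hd
  have hη := η_pos hd
  have hmθ : ((m : ℝ) * |θ|) ^ 2 ≤ η d ^ 2 := pow_le_pow_left₀ (by positivity) hθ 2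
  rw [mul_pow, sq_abs] at hmθ
  have ht : ∀ i ∈ Icc 1 n, (d : ℝ) ^ 3 * x ^ i * ((i : ℝ) * θ) ^ 2 / 2 ≤ 1 / 2 := by
    intro i hi
    have h1 := h.sq_le hi
    have h2 : (d : ℝ) ^ 3 * x ^ i * ((i : ℝ) * θ) ^ 2 / 2
        = (d : ℝ) ^ 3 * θ ^ 2 / 2 * ((i : ℝ) ^ 2 * x ^ i) := by ring
    rw [h2]
    have h3 : (d : ℝ) ^ 3 * θ ^ 2 / 2 * ((i : ℝ) ^ 2 * x ^ i)
        ≤ (d : ℝ) ^ 3 * θ ^ 2 / 2 * (8 * (m : ℝ) ^ 2) :=
      mul_le_mul_of_nonneg_left h1 (by positivity)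
    have h4 : (d : ℝ) ^ 3 * θ ^ 2 / 2 * (8 * (m : ℝ) ^ 2) = 4 * (d : ℝ) ^ 3 * ((m : ℝ) ^ 2 * θ ^ 2) := by
      ring
    have h5 : 4 * (d : ℝ) ^ 3 * ((m : ℝ) ^ 2 * θ ^ 2) ≤ 4 * (d : ℝ) ^ 3 * η d ^ 2 :=
      mul_le_mul_of_nonneg_left hmθ (by positivity)
    have h6 : 4 * (d : ℝ) ^ 3 * η d ^ 2 ≤ 1 / 2 := by
      unfold η
      rw [div_pow, one_pow, mul_one_div, div_le_div_iff₀ (by positivity) (by norm_num)]
      have h7 : (d : ℝ) ^ 3 * 2 ≤ (d : ℝ) ^ 3 * d := mul_le_mul_of_nonneg_left hd' (by positivity)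
      nlinarith
    linarith
  have h1 : ∏ i ∈ Icc 1 n, Real.exp (-(2 * ((d : ℝ) ^ 3 * x ^ i * ((i : ℝ) * θ) ^ 2 / 2)))
      ≤ A d n x θ := by
    unfold A
    refine Finset.prod_le_prod (fun i _ => (Real.exp_pos _).le) (fun i hi => ?_)
    rw [ph_re]
    refine le_trans (exp_le_one_sub ?_ (ht i hi))
      (re_ge hd (pow_nonneg hx0 i) (pow_le_one₀ hx0 hx1.le) _)
    have : 0 ≤ x ^ i := pow_nonneg hx0 i
    positivity
  refine le_trans ?_ h1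
  rw [← Real.exp_sum]
  apply Real.exp_le_exp.mpr
  rw [Finset.sum_neg_distrib]
  apply neg_le_neg
  have h2 := h.sum_le 2
  have h5 : ((Nat.factorial 2 : ℕ) : ℝ) * 2 ^ (2 + 1) * (m : ℝ) ^ (2 + 1) = 16 * (m : ℝ) ^ 3 := by
    norm_num [Nat.factorial]
  rw [h5] at h2
  calc ∑ i ∈ Icc 1 n, 2 * ((d : ℝ) ^ 3 * x ^ i * ((i : ℝ) * θ) ^ 2 / 2)
      = ((d : ℝ) ^ 3 * θ ^ 2) * ∑ i ∈ Icc 1 n, ((i : ℝ) ^ 2 * x ^ i) := by
        rw [Finset.mul_sum]
        refine Finset.sum_congr rfl (fun i _ => by ring)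
    _ ≤ ((d : ℝ) ^ 3 * θ ^ 2) * (16 * (m : ℝ) ^ 3) := mul_le_mul_of_nonneg_left h2 (by positivity)
    _ = 16 * (d : ℝ) ^ 3 * (m : ℝ) ^ 3 * θ ^ 2 := by ring

/-- The integrand. -/
noncomputable def L (d n : ℕ) (x θ : ℝ) : ℝ :=
  (1 - x) * (Real.cos (θ / 2) * (T d n x θ).re) + (1 + x) * (Real.sin (θ / 2) * (T d n x θ).im)

theorem L_ge (hd : 2 ≤ d) (h : Scale n m x) (θ : ℝ) (hθ : |θ| ≤ Real.pi) :
    (1 - x) / 2 * Real.exp (-(16 * (d : ℝ) ^ 3 * (m : ℝ) ^ 3 * θ ^ 2))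
      - ((1 - x) + |θ|) * (9216 * (d : ℝ) ^ 5 * (1 - x) * (m : ℝ) ^ 5 * |θ| ^ 3
          * Real.exp (-(κ d * (m : ℝ) ^ 3 * θ ^ 2)))
      - 4 * Real.exp (-(κ d * η d ^ 2 * m)) ≤ L d n x θ := by
  have hx0 : 1 / 2 ≤ x := h.hx0
  have hx1 := h.hx1
  have h1x : 0 ≤ 1 - x := by linarith
  have hm1 : (1 : ℝ) ≤ m := by exact_mod_cast h.hm
  have hd' : (2 : ℝ) ≤ d := by exact_mod_cast hd
  have hη := η_pos hd
  have hη2 := η_le hd
  have hκ := κ_pos hd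
  have hκ1 := κ_le hd
  have hpi := Real.pi_gt_three
  have hθ0 := abs_nonneg θ
  set G := 9216 * (d : ℝ) ^ 5 * (1 - x) * (m : ℝ) ^ 5 * |θ| ^ 3
          * Real.exp (-(κ d * (m : ℝ) ^ 3 * θ ^ 2)) with hG
  have hG0 : 0 ≤ G := by
    have := Real.exp_pos (-(κ d * (m : ℝ) ^ 3 * θ ^ 2))
    positivity
  set ρ := Real.exp (-(κ d * η d ^ 2 * m)) with hρ
  have hρ0 : 0 < ρ := Real.exp_pos _
  have hsin : |Real.sin (θ / 2)| ≤ |θ| / 2 := by
    have := Real.abs_sin_le_abs (x := θ / 2)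
    rwa [abs_div, abs_two] at this
  rcases le_total ((m : ℝ) * |θ|) (η d) with hc | hc
  · -- central window
    have hc' : (m : ℝ) * |θ| ≤ Real.pi := by linarith
    have hcomp := T_compare hd h θ hc'
    rw [← hG] at hcomp
    have hA := A_ge hd h θ hc
    have hθs : |θ| ≤ 1 / 12 := by
      calc |θ| = 1 * |θ| := (one_mul _).symm
        _ ≤ m * |θ| := mul_le_mul_of_nonneg_right hm1 hθ0
        _ ≤ 1 / 12 := by linarith
    have hcos : 1 / 2 ≤ Real.cos (θ / 2) := by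
      have h1 := Real.one_sub_sq_div_two_le_cos (x := θ / 2)
      have h2 : (θ / 2) ^ 2 = |θ| ^ 2 / 4 := by rw [sq_abs]; ring
      rw [h2] at h1
      nlinarith
    have hcos1 : Real.cos (θ / 2) ≤ 1 := Real.cos_le_one _
    have hre : A d n x θ - G ≤ (T d n x θ).re := by
      have h1 := (Complex.abs_re_le_norm (T d n x θ - (A d n x θ : ℂ))).trans hcomp
      rw [Complex.sub_re, Complex.ofReal_re] at h1
      have := (abs_le.mp h1).1
      linarith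
    have him : |(T d n x θ).im| ≤ G := by
      have h1 := (Complex.abs_im_le_norm (T d n x θ - (A d n x θ : ℂ))).trans hcomp
      rwa [Complex.sub_im, Complex.ofReal_im, sub_zero] at h1
    have hp1 : 1 / 2 * Real.exp (-(16 * (d : ℝ) ^ 3 * (m : ℝ) ^ 3 * θ ^ 2)) - G
        ≤ Real.cos (θ / 2) * (T d n x θ).re := by
      have h1 : Real.cos (θ / 2) * (A d n x θ - G) ≤ Real.cos (θ / 2) * (T d n x θ).re :=
        mul_le_mul_of_nonneg_left hre (by linarith)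
      have h2 : 1 / 2 * Real.exp (-(16 * (d : ℝ) ^ 3 * (m : ℝ) ^ 3 * θ ^ 2))
          ≤ Real.cos (θ / 2) * A d n x θ :=
        mul_le_mul hcos hA (Real.exp_pos _).le (by linarith)
      have h3 : Real.cos (θ / 2) * G ≤ G := by nlinarith
      nlinarith
    have hp2 : -(|θ| / 2 * G) ≤ Real.sin (θ / 2) * (T d n x θ).im := by
      have h1 : |Real.sin (θ / 2) * (T d n x θ).im| ≤ |θ| / 2 * G := by
        rw [abs_mul]
        exact mul_le_mul hsin him (abs_nonneg _) (by positivity)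
      exact (abs_le.mp h1).1
    unfold L
    have h3 := mul_le_mul_of_nonneg_left hp1 h1x
    have h4 := mul_le_mul_of_nonneg_left hp2 (show 0 ≤ 1 + x by linarith)
    have h5 : -(|θ| * G) ≤ (1 + x) * -(|θ| / 2 * G) := by
      have : 0 ≤ |θ| * G := by positivity
      nlinarith
    have h6 : (1 - x) / 2 * Real.exp (-(16 * (d : ℝ) ^ 3 * (m : ℝ) ^ 3 * θ ^ 2))
      - ((1 - x) + |θ|) * G = (1 - x) * (1 / 2 * Real.exp (-(16 * (d : ℝ) ^ 3 * (m : ℝ) ^ 3 * θ ^ 2)) - G)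
        + -(|θ| * G) := by ring
    linarith
  · -- outside the window
    have hT : ‖T d n x θ‖ ≤ ρ := by
      refine (T_norm_le hd h θ).trans ?_
      apply Real.exp_le_exp.mpr
      have := be_sum_large hd h θ hc hθ
      linarith
    have hre : |(T d n x θ).re| ≤ ρ := (Complex.abs_re_le_norm _).trans hT
    have him : |(T d n x θ).im| ≤ ρ := (Complex.abs_im_le_norm _).trans hT
    have hcos : |Real.cos (θ / 2)| ≤ 1 := Real.abs_cos_le_one _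
    have hsin1 : |Real.sin (θ / 2)| ≤ 1 := Real.abs_sin_le_one _
    have h1 : -ρ ≤ Real.cos (θ / 2) * (T d n x θ).re := by
      have : |Real.cos (θ / 2) * (T d n x θ).re| ≤ 1 * ρ := by
        rw [abs_mul]
        exact mul_le_mul hcos hre (abs_nonneg _) (by norm_num)
      have := (abs_le.mp this).1
      linarith
    have h2 : -ρ ≤ Real.sin (θ / 2) * (T d n x θ).im := by
      have : |Real.sin (θ / 2) * (T d n x θ).im| ≤ 1 * ρ := by
        rw [abs_mul]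
        exact mul_le_mul hsin1 him (abs_nonneg _) (by norm_num)
      have := (abs_le.mp this).1
      linarith
    have h3 : Real.exp (-(16 * (d : ℝ) ^ 3 * (m : ℝ) ^ 3 * θ ^ 2)) ≤ ρ := by
      apply Real.exp_le_exp.mpr
      have h4 : η d ^ 2 ≤ (m : ℝ) ^ 2 * θ ^ 2 := by
        have := pow_le_pow_left₀ hη.le hc 2
        rwa [mul_pow, sq_abs] at this
      have h5 : κ d ≤ 16 * (d : ℝ) ^ 3 := by
        have : (1 : ℝ) ≤ (d : ℝ) ^ 3 := one_le_pow₀ (by linarith)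
        linarith
      have h6 : κ d * η d ^ 2 ≤ 16 * (d : ℝ) ^ 3 * ((m : ℝ) ^ 2 * θ ^ 2) :=
        mul_le_mul h5 h4 (by positivity) (by positivity)
      have h7 := mul_le_mul_of_nonneg_right h6 (show (0 : ℝ) ≤ m by linarith)
      have h8 : 16 * (d : ℝ) ^ 3 * ((m : ℝ) ^ 2 * θ ^ 2) * m = 16 * (d : ℝ) ^ 3 * (m : ℝ) ^ 3 * θ ^ 2 := by
        ring
      rw [h8] at h7
      linarith
    unfold L
    have h4 := mul_le_mul_of_nonneg_left h1 h1x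
    have h5 := mul_le_mul_of_nonneg_left h2 (show 0 ≤ 1 + x by linarith)
    have h6 : 0 ≤ ((1 - x) + |θ|) * G := by positivity
    have h7 : (1 - x) / 2 * Real.exp (-(16 * (d : ℝ) ^ 3 * (m : ℝ) ^ 3 * θ ^ 2)) ≤ ρ := by
      have h8 := Real.exp_pos (-(16 * (d : ℝ) ^ 3 * (m : ℝ) ^ 3 * θ ^ 2))
      have h9 : (1 - x) / 2 ≤ 1 := by linarith
      calc (1 - x) / 2 * Real.exp (-(16 * (d : ℝ) ^ 3 * (m : ℝ) ^ 3 * θ ^ 2))
          ≤ 1 * Real.exp (-(16 * (d : ℝ) ^ 3 * (m : ℝ) ^ 3 * θ ^ 2)) :=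
            mul_le_mul_of_nonneg_right h9 h8.le
        _ ≤ ρ := by linarith
    nlinarith

end

end Pool.Agent.Helper645.Alm
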