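import Pool.Agent.Helper645.AlmD

set_option autoImplicit false

open Finset

namespace Pool.Agent.Helper645.Alm

/-- The polynomial of the problem. -/
noncomputable def P (d n : ℕ) : Polynomial ℕ :=
  ∏ i ∈ Finset.Icc 1 n, ∑ k ∈ Finset.range d, (Polynomial.X : Polynomial ℕ) ^ (i * k)

/-- Normalising constant. -/
noncomputable def W (d n : ℕ) (x : ℝ) : ℝ := ∏ i ∈ Icc 1 n, Z d (x ^ i)

/-- Mean of the sum. -/
noncomputable def mean (d n : ℕ) (x : ℝ) : ℝ := ∑ i ∈ Icc 1 n, (i : ℝ) * mu d (x ^ i)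

theorem W_pos {d : ℕ} (hd : 2 ≤ d) (n : ℕ) {x : ℝ} (hx : 0 ≤ x) : 0 < W d n x :=
  Finset.prod_pos (fun i _ => Z_pos hd (pow_nonneg hx i))

theorem T_eq {d : ℕ} (n : ℕ) (x θ : ℝ) :
    T d n x θ = (((W d n x)⁻¹ : ℝ) : ℂ) * ∑ l ∈ range ((P d n).natDegree + 1),
      ((((P d n).coeff l : ℝ) * x ^ l : ℝ) : ℂ)
        * Complex.exp (((θ * ((l : ℝ) - mean d n x) : ℝ) : ℂ) * Complex.I) := by
  set t : ℂ := (x : ℂ) * Complex.exp ((θ : ℂ) * Complex.I) with ht
  have hph : ∀ i ∈ Icc 1 n, ph d (x ^ i) (i * θ)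
      = (((Z d (x ^ i))⁻¹ : ℝ) : ℂ) * Complex.exp (((-(θ * ((i : ℝ) * mu d (x ^ i))) : ℝ) : ℂ) * Complex.I)
        * ∑ j ∈ range d, t ^ (i * j) := by
    intro i _
    unfold ph
    rw [Finset.mul_sum]
    refine Finset.sum_congr rfl (fun j _ => ?_)
    have e1 : t ^ (i * j) = ((x ^ (i * j) : ℝ) : ℂ) * Complex.exp (((i * j : ℕ) : ℂ) * ((θ : ℂ) * Complex.I)) := by
      rw [ht, mul_pow, ← Complex.exp_nat_mul]
      push_cast
      ring
    rw [e1]
    have e2 : Complex.exp ((((i : ℝ) * θ * ((j : ℝ) - mu d (x ^ i)) : ℝ) : ℂ) * Complex.I)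
        = Complex.exp (((-(θ * ((i : ℝ) * mu d (x ^ i))) : ℝ) : ℂ) * Complex.I)
          * Complex.exp (((i * j : ℕ) : ℂ) * ((θ : ℂ) * Complex.I)) := by
      rw [← Complex.exp_add]
      congr 1
      push_cast
      ring
    rw [e2]
    unfold w
    rw [← pow_mul]
    push_cast
    ring
  unfold T
  rw [Finset.prod_congr rfl hph, Finset.prod_mul_distrib, Finset.prod_mul_distrib]
  have h1 : ∏ i ∈ Icc 1 n, (((Z d (x ^ i))⁻¹ : ℝ) : ℂ) = (((W d n x)⁻¹ : ℝ) : ℂ) := by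
    unfold W
    rw [← Finset.prod_inv_distrib]
    push_cast
    rfl
  have h2 : ∏ i ∈ Icc 1 n, Complex.exp (((-(θ * ((i : ℝ) * mu d (x ^ i))) : ℝ) : ℂ) * Complex.I)
      = Complex.exp (((-(θ * mean d n x) : ℝ) : ℂ) * Complex.I) := by
    rw [← Complex.exp_sum]
    congr 1
    rw [← Finset.sum_mul]
    congr 1
    unfold mean
    rw [Finset.mul_sum]
    push_cast
    rw [Finset.sum_neg_distrib]
  have h3 : ∏ i ∈ Icc 1 n, ∑ j ∈ range d, t ^ (i * j) = Polynomial.aeval t (P d n) := by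
    unfold P
    rw [map_prod]
    refine Finset.prod_congr rfl (fun i _ => ?_)
    rw [map_sum]
    refine Finset.sum_congr rfl (fun j _ => ?_)
    rw [map_pow, Polynomial.aeval_X]
  rw [h1, h2, h3, Polynomial.aeval_eq_sum_range, mul_assoc, Finset.mul_sum]
  congr 1
  refine Finset.sum_congr rfl (fun l _ => ?_)
  rw [ht, mul_pow, ← Complex.exp_nat_mul, nsmul_eq_mul]
  have e3 : Complex.exp (((θ * ((l : ℝ) - mean d n x) : ℝ) : ℂ) * Complex.I)
      = Complex.exp (((-(θ * mean d n x) : ℝ) : ℂ) * Complex.I)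
        * Complex.exp ((l : ℂ) * ((θ : ℂ) * Complex.I)) := by
    rw [← Complex.exp_add]
    congr 1
    push_cast
    ring
  rw [e3]
  push_cast
  ring

theorem T_re {d : ℕ} (n : ℕ) (x θ : ℝ) :
    (T d n x θ).re = (W d n x)⁻¹ * ∑ l ∈ range ((P d n).natDegree + 1),
      (((P d n).coeff l : ℝ) * x ^ l) * Real.cos (θ * ((l : ℝ) - mean d n x)) := by
  rw [T_eq, Complex.re_ofReal_mul, Complex.re_sum]
  congr 1
  refine Finset.sum_congr rfl (fun l _ => ?_)
  rw [Complex.re_ofReal_mul, Complex.exp_ofReal_mul_I_re]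

theorem T_im {d : ℕ} (n : ℕ) (x θ : ℝ) :
    (T d n x θ).im = (W d n x)⁻¹ * ∑ l ∈ range ((P d n).natDegree + 1),
      (((P d n).coeff l : ℝ) * x ^ l) * Real.sin (θ * ((l : ℝ) - mean d n x)) := by
  rw [T_eq, Complex.im_ofReal_mul, Complex.im_sum]
  congr 1
  refine Finset.sum_congr rfl (fun l _ => ?_)
  rw [Complex.im_ofReal_mul, Complex.exp_ofReal_mul_I_im]

theorem L_eq {d : ℕ} (n k : ℕ) (x θ : ℝ) (hk : mean d n x = (k : ℝ) - 1 / 2) :
    L d n x θ = (W d n x)⁻¹ * ∑ l ∈ range ((P d n).natDegree + 1),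
      (((P d n).coeff l : ℝ) * x ^ l) *
        (Real.cos (θ * (((l : ℤ) - (k : ℤ) : ℤ) : ℝ)) - x * Real.cos (θ * (((l : ℤ) - (k : ℤ) + 1 : ℤ) : ℝ))) := by
  unfold L
  rw [T_re, T_im, hk]
  have e : ∀ S C : ℝ, (1 - x) * (Real.cos (θ / 2) * ((W d n x)⁻¹ * S))
      + (1 + x) * (Real.sin (θ / 2) * ((W d n x)⁻¹ * C))
      = (W d n x)⁻¹ * (((1 - x) * Real.cos (θ / 2)) * S + ((1 + x) * Real.sin (θ / 2)) * C) := by
    intro S C; ring
  rw [e, Finset.mul_sum, Finset.mul_sum, ← Finset.sum_add_distrib]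
  congr 1
  refine Finset.sum_congr rfl (fun l _ => ?_)
  have c0 : Real.cos (θ * (((l : ℤ) - (k : ℤ) : ℤ) : ℝ))
      = Real.cos (θ * ((l : ℝ) - ((k : ℝ) - 1 / 2))) * Real.cos (θ / 2)
        + Real.sin (θ * ((l : ℝ) - ((k : ℝ) - 1 / 2))) * Real.sin (θ / 2) := by
    rw [← Real.cos_sub]
    congr 1
    push_cast
    ring
  have c1 : Real.cos (θ * (((l : ℤ) - (k : ℤ) + 1 : ℤ) : ℝ))
      = Real.cos (θ * ((l : ℝ) - ((k : ℝ) - 1 / 2))) * Real.cos (θ / 2)
        - Real.sin (θ * ((l : ℝ) - ((k : ℝ) - 1 / 2))) * Real.sin (θ / 2) := by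
    rw [← Real.cos_add]
    congr 1
    push_cast
    ring
  rw [c0, c1]
  ring

theorem integral_cos_int (r : ℤ) :
    ∫ θ in (-Real.pi)..Real.pi, Real.cos (θ * (r : ℝ)) = if r = 0 then 2 * Real.pi else 0 := by
  split_ifs with h
  · subst h
    simp
    ring
  · have hr : (r : ℝ) ≠ 0 := by exact_mod_cast h
    rw [intervalIntegral.integral_comp_mul_right (fun y => Real.cos y) hr, integral_cos]
    have h1 : Real.sin (Real.pi * (r : ℝ)) = 0 := by
      rw [mul_comm]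
      exact Real.sin_int_mul_pi r
    have h2 : Real.sin (-Real.pi * (r : ℝ)) = 0 := by
      rw [neg_mul, Real.sin_neg, h1, neg_zero]
    rw [h1, h2]
    simp

theorem L_continuous {d : ℕ} (n k : ℕ) (x : ℝ) (hk : mean d n x = (k : ℝ) - 1 / 2) :
    Continuous (fun θ => L d n x θ) := by
  have : (fun θ => L d n x θ) = fun θ => (W d n x)⁻¹ * ∑ l ∈ range ((P d n).natDegree + 1),
      (((P d n).coeff l : ℝ) * x ^ l) *
        (Real.cos (θ * (((l : ℤ) - (k : ℤ) : ℤ) : ℝ)) - x * Real.cos (θ * (((l : ℤ) - (k : ℤ) + 1 : ℤ) : ℝ))) := by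
    funext θ
    exact L_eq n k x θ hk
  rw [this]
  fun_prop

/-- The integral of the integrand is a positive multiple of the difference of coefficients. -/
theorem integral_L {d : ℕ} (n k : ℕ) (x : ℝ) (hk1 : 1 ≤ k)
    (hk : mean d n x = (k : ℝ) - 1 / 2) :
    ∫ θ in (-Real.pi)..Real.pi, L d n x θ
      = 2 * Real.pi * x ^ k * (W d n x)⁻¹ * (((P d n).coeff k : ℝ) - ((P d n).coeff (k - 1) : ℝ)) := by
  have h1 : ∀ θ, L d n x θ = (W d n x)⁻¹ * ∑ l ∈ range ((P d n).natDegree + 1),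
      (((P d n).coeff l : ℝ) * x ^ l) *
        (Real.cos (θ * (((l : ℤ) - (k : ℤ) : ℤ) : ℝ)) - x * Real.cos (θ * (((l : ℤ) - (k : ℤ) + 1 : ℤ) : ℝ))) :=
    fun θ => L_eq n k x θ hk
  simp only [h1]
  rw [intervalIntegral.integral_const_mul, intervalIntegral.integral_finsetSum]
  swap
  · intro l _
    apply Continuous.intervalIntegrable
    fun_prop
  have h2 : ∀ l ∈ range ((P d n).natDegree + 1),
      ∫ θ in (-Real.pi)..Real.pi, (((P d n).coeff l : ℝ) * x ^ l) *
        (Real.cos (θ * (((l : ℤ) - (k : ℤ) : ℤ) : ℝ)) - x * Real.cos (θ * (((l : ℤ) - (k : ℤ) + 1 : ℤ) : ℝ)))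
      = (((P d n).coeff l : ℝ) * x ^ l) * ((if l = k then 2 * Real.pi else 0)
          - x * (if l = k - 1 then 2 * Real.pi else 0)) := by
    intro l _
    rw [intervalIntegral.integral_const_mul, intervalIntegral.integral_sub,
      intervalIntegral.integral_const_mul, integral_cos_int, integral_cos_int]
    · congr 2
      · congr 1
        apply propext
        omega
      · congr 2
        apply propext
        omega
    · apply Continuous.intervalIntegrable
      fun_prop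
    · apply Continuous.intervalIntegrable
      fun_prop
  rw [Finset.sum_congr rfl h2]
  have h3 : ∀ l, (P d n).natDegree < l → (P d n).coeff l = 0 := fun l hl =>
    Polynomial.coeff_eq_zero_of_natDegree_lt hl
  have h4 : ∀ k' : ℕ, ∑ l ∈ range ((P d n).natDegree + 1),
      (((P d n).coeff l : ℝ) * x ^ l) * (if l = k' then 2 * Real.pi else 0)
      = ((P d n).coeff k' : ℝ) * x ^ k' * (2 * Real.pi) := by
    intro k'
    by_cases hk' : k' ∈ range ((P d n).natDegree + 1)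
    · rw [Finset.sum_eq_single k']
      · simp
      · intro b _ hb
        simp [hb]
      · intro h; exact absurd hk' h
    · rw [Finset.sum_eq_zero]
      · rw [h3 k' (by rw [Finset.mem_range] at hk'; omega)]
        simp
      · intro l hl
        have : l ≠ k' := fun h => hk' (h ▸ hl)
        simp [this]
  have h5 : ∀ l ∈ range ((P d n).natDegree + 1),
      (((P d n).coeff l : ℝ) * x ^ l) * ((if l = k then 2 * Real.pi else 0)
          - x * (if l = k - 1 then 2 * Real.pi else 0))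
      = (((P d n).coeff l : ℝ) * x ^ l) * (if l = k then 2 * Real.pi else 0)
        - x * ((((P d n).coeff l : ℝ) * x ^ l) * (if l = k - 1 then 2 * Real.pi else 0)) := by
    intro l _; ring
  rw [Finset.sum_congr rfl h5, Finset.sum_sub_distrib, ← Finset.mul_sum, h4, h4]
  have h6 : x ^ k = x * x ^ (k - 1) := by
    rw [← pow_succ']
    congr 1
    omega
  rw [h6]
  ring

end Pool.Agent.Helper645.Alm
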