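import Pool.Agent.Helper645.AlmE

set_option autoImplicit false

open Finset

namespace Pool.Agent.Helper645.Alm

theorem gauss_lower (b : ℝ) (hb : 1 ≤ b) :
    2 * Real.exp (-1) / Real.sqrt b ≤ ∫ θ in (-Real.pi)..Real.pi, Real.exp (-(b * θ ^ 2)) := by
  have hb0 : 0 < b := by linarith
  have hs : 1 ≤ Real.sqrt b := by
    rw [Real.one_le_sqrt]; exact hb
  set r := 1 / Real.sqrt b with hr
  have hr0 : 0 < r := by positivity
  have hr1 : r ≤ 1 := by
    rw [hr, div_le_one (by positivity)]; exact hs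
  have hpi := Real.pi_gt_three
  have hint : ∀ u v : ℝ, IntervalIntegrable (fun θ : ℝ => Real.exp (-(b * θ ^ 2))) MeasureTheory.volume u v := by
    intro u v
    apply Continuous.intervalIntegrable
    fun_prop
  have h1 : ∫ θ in (-r)..r, Real.exp (-1) ≤ ∫ θ in (-r)..r, Real.exp (-(b * θ ^ 2)) := by
    refine intervalIntegral.integral_mono_on (by linarith) ?_ (hint _ _) ?_
    · apply Continuous.intervalIntegrable
      fun_prop
    · intro θ hθ
      apply Real.exp_le_exp.mpr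
      have h2 : θ ^ 2 ≤ r ^ 2 := by
        rw [← sq_abs θ]
        exact pow_le_pow_left₀ (abs_nonneg _) (abs_le.mpr ⟨hθ.1, hθ.2⟩) 2
      have h3 : b * r ^ 2 = 1 := by
        rw [hr, div_pow, one_pow, Real.sq_sqrt hb0.le]
        field_simp
      have h4 : b * θ ^ 2 ≤ b * r ^ 2 := mul_le_mul_of_nonneg_left h2 hb0.le
      linarith
  have h2 : ∫ θ in (-r)..r, Real.exp (-(b * θ ^ 2)) ≤ ∫ θ in (-Real.pi)..Real.pi, Real.exp (-(b * θ ^ 2)) := by
    refine intervalIntegral.integral_mono_interval (by linarith) (by linarith) (by linarith) ?_ (hint _ _)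
    exact Filter.Eventually.of_forall (fun θ => (Real.exp_pos _).le)
  rw [intervalIntegral.integral_const, smul_eq_mul] at h1
  calc 2 * Real.exp (-1) / Real.sqrt b = (r - -r) * Real.exp (-1) := by rw [hr]; ring
    _ ≤ _ := h1.trans h2

theorem gauss_upper (a : ℝ) (ha : 0 < a) :
    ∫ θ in (-Real.pi)..Real.pi, Real.exp (-(a * θ ^ 2)) ≤ Real.sqrt (Real.pi / a) := by
  have hpi := Real.pi_pos
  rw [intervalIntegral.integral_of_le (by linarith)]
  have e : ∀ θ : ℝ, Real.exp (-(a * θ ^ 2)) = Real.exp (-a * θ ^ 2) := by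
    intro θ; rw [neg_mul]
  simp only [e]
  refine (MeasureTheory.setIntegral_le_integral (integrable_exp_neg_mul_sq ha) ?_).trans
    (le_of_eq (integral_gaussian a))
  exact Filter.Eventually.of_forall (fun θ => (Real.exp_pos _).le)

theorem moment_point (a c θ : ℝ) (ha : 0 < a) (hc : 0 ≤ c) :
    (c + |θ|) * (|θ| ^ 3 * Real.exp (-(a * θ ^ 2)))
      ≤ (5 * c / Real.sqrt a ^ 3 + 8 / Real.sqrt a ^ 4) * Real.exp (-(a / 2 * θ ^ 2)) := by
  set s := Real.sqrt a with hs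
  have hs0 : 0 < s := Real.sqrt_pos.mpr ha
  have hsa : s ^ 2 = a := Real.sq_sqrt ha.le
  set u := s * |θ| with hu
  have hu0 : 0 ≤ u := by positivity
  have hu2 : u ^ 2 = a * θ ^ 2 := by rw [hu, mul_pow, hsa, sq_abs]
  have hE : Real.exp (-(a * θ ^ 2)) = Real.exp (-(u ^ 2 / 2)) * Real.exp (-(a / 2 * θ ^ 2)) := by
    rw [← Real.exp_add, hu2]
    congr 1
    ring
  have hmul : Real.exp (u ^ 2 / 2) * Real.exp (-(u ^ 2 / 2)) = 1 := by
    rw [← Real.exp_add]; simp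
  have hq := Real.quadratic_le_exp_of_nonneg (show 0 ≤ u ^ 2 / 2 by positivity)
  have hp := Real.exp_pos (-(u ^ 2 / 2))
  have h4 : u ^ 4 * Real.exp (-(u ^ 2 / 2)) ≤ 8 := by
    have h : u ^ 4 ≤ 8 * Real.exp (u ^ 2 / 2) := by nlinarith [sq_nonneg u]
    calc u ^ 4 * Real.exp (-(u ^ 2 / 2)) ≤ 8 * Real.exp (u ^ 2 / 2) * Real.exp (-(u ^ 2 / 2)) :=
          mul_le_mul_of_nonneg_right h hp.le
      _ = 8 := by rw [mul_assoc, hmul, mul_one]
  have h3 : u ^ 3 * Real.exp (-(u ^ 2 / 2)) ≤ 5 := by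
    have h : u ^ 3 ≤ 5 * Real.exp (u ^ 2 / 2) := by
      have h5 : u ^ 3 ≤ (u ^ 2 + u ^ 4) / 2 := by nlinarith [sq_nonneg (u * (u - 1)), sq_nonneg u]
      nlinarith [sq_nonneg u]
    calc u ^ 3 * Real.exp (-(u ^ 2 / 2)) ≤ 5 * Real.exp (u ^ 2 / 2) * Real.exp (-(u ^ 2 / 2)) :=
          mul_le_mul_of_nonneg_right h hp.le
      _ = 5 := by rw [mul_assoc, hmul, mul_one]
  have hθ : |θ| = u / s := by rw [hu]; field_simp
  have e1 : (c + |θ|) * (|θ| ^ 3 * Real.exp (-(a * θ ^ 2)))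
      = (c / s ^ 3 * (u ^ 3 * Real.exp (-(u ^ 2 / 2))) + 1 / s ^ 4 * (u ^ 4 * Real.exp (-(u ^ 2 / 2))))
        * Real.exp (-(a / 2 * θ ^ 2)) := by
    rw [hE, hθ]
    field_simp
  rw [e1]
  refine mul_le_mul_of_nonneg_right ?_ (Real.exp_pos _).le
  have h5 : c / s ^ 3 * (u ^ 3 * Real.exp (-(u ^ 2 / 2))) ≤ c / s ^ 3 * 5 :=
    mul_le_mul_of_nonneg_left h3 (by positivity)
  have h6 : 1 / s ^ 4 * (u ^ 4 * Real.exp (-(u ^ 2 / 2))) ≤ 1 / s ^ 4 * 8 :=
    mul_le_mul_of_nonneg_left h4 (by positivity)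
  calc c / s ^ 3 * (u ^ 3 * Real.exp (-(u ^ 2 / 2))) + 1 / s ^ 4 * (u ^ 4 * Real.exp (-(u ^ 2 / 2)))
      ≤ c / s ^ 3 * 5 + 1 / s ^ 4 * 8 := add_le_add h5 h6
    _ = 5 * c / s ^ 3 + 8 / s ^ 4 := by ring

theorem moment_int (a c : ℝ) (ha : 0 < a) (hc : 0 ≤ c) :
    ∫ θ in (-Real.pi)..Real.pi, (c + |θ|) * (|θ| ^ 3 * Real.exp (-(a * θ ^ 2)))
      ≤ (5 * c / Real.sqrt a ^ 3 + 8 / Real.sqrt a ^ 4) * (Real.sqrt (2 * Real.pi) / Real.sqrt a) := by
  have hpi := Real.pi_pos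
  have h1 : ∫ θ in (-Real.pi)..Real.pi, (c + |θ|) * (|θ| ^ 3 * Real.exp (-(a * θ ^ 2)))
      ≤ ∫ θ in (-Real.pi)..Real.pi,
        (5 * c / Real.sqrt a ^ 3 + 8 / Real.sqrt a ^ 4) * Real.exp (-(a / 2 * θ ^ 2)) := by
    refine intervalIntegral.integral_mono_on (by linarith) ?_ ?_ (fun θ _ => moment_point a c θ ha hc)
    · apply Continuous.intervalIntegrable
      fun_prop
    · apply Continuous.intervalIntegrable
      fun_prop
  refine h1.trans ?_
  rw [intervalIntegral.integral_const_mul]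
  have hs0 : 0 < Real.sqrt a := Real.sqrt_pos.mpr ha
  refine mul_le_mul_of_nonneg_left ?_ (by positivity)
  refine (gauss_upper (a / 2) (by positivity)).trans (le_of_eq ?_)
  rw [← Real.sqrt_div (by positivity)]
  congr 1
  field_simp

/-- The lower bound of the integral. -/
theorem int_lower {d n m k : ℕ} {x : ℝ} (hd : 2 ≤ d) (h : Scale n m x)
    (hk : mean d n x = (k : ℝ) - 1 / 2) :
    (1 - x) / 2 * (2 * Real.exp (-1) / Real.sqrt (16 * (d : ℝ) ^ 3 * (m : ℝ) ^ 3))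
      - 9216 * (d : ℝ) ^ 5 * (1 - x) * (m : ℝ) ^ 5 *
        ((5 * (1 - x) / Real.sqrt (κ d * (m : ℝ) ^ 3) ^ 3 + 8 / Real.sqrt (κ d * (m : ℝ) ^ 3) ^ 4)
          * (Real.sqrt (2 * Real.pi) / Real.sqrt (κ d * (m : ℝ) ^ 3)))
      - 8 * Real.pi * Real.exp (-(κ d * η d ^ 2 * m))
      ≤ ∫ θ in (-Real.pi)..Real.pi, L d n x θ := by
  have hx0 : 1 / 2 ≤ x := h.hx0
  have hx1 := h.hx1
  have h1x : 0 ≤ 1 - x := by linarith
  have hm1 : (1 : ℝ) ≤ m := by exact_mod_cast h.hm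
  have hd' : (2 : ℝ) ≤ d := by exact_mod_cast hd
  have hκ := κ_pos hd
  have hpi := Real.pi_pos
  have ha : 0 < κ d * (m : ℝ) ^ 3 := by positivity
  have hb : 1 ≤ 16 * (d : ℝ) ^ 3 * (m : ℝ) ^ 3 := by
    have h1 : (1 : ℝ) ≤ (d : ℝ) ^ 3 := one_le_pow₀ (by linarith)
    have h2 : (1 : ℝ) ≤ (m : ℝ) ^ 3 := one_le_pow₀ hm1
    nlinarith
  have hmono : ∫ θ in (-Real.pi)..Real.pi,
      ((1 - x) / 2 * Real.exp (-(16 * (d : ℝ) ^ 3 * (m : ℝ) ^ 3 * θ ^ 2))
      - 9216 * (d : ℝ) ^ 5 * (1 - x) * (m : ℝ) ^ 5 *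
          (((1 - x) + |θ|) * (|θ| ^ 3 * Real.exp (-(κ d * (m : ℝ) ^ 3 * θ ^ 2))))
      - 4 * Real.exp (-(κ d * η d ^ 2 * m)))
      ≤ ∫ θ in (-Real.pi)..Real.pi, L d n x θ := by
    refine intervalIntegral.integral_mono_on (by linarith) ?_ ?_ ?_
    · apply Continuous.intervalIntegrable
      fun_prop
    · exact (L_continuous n k x hk).intervalIntegrable _ _
    · intro θ hθ
      refine le_trans (le_of_eq ?_) (L_ge hd h θ (abs_le.mpr ⟨hθ.1, hθ.2⟩))
      ring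
  refine le_trans ?_ hmono
  rw [intervalIntegral.integral_sub, intervalIntegral.integral_sub,
    intervalIntegral.integral_const_mul, intervalIntegral.integral_const_mul,
    intervalIntegral.integral_const]
  · have h1 := gauss_lower _ hb
    have h2 := moment_int _ (1 - x) ha h1x
    have h3 := mul_le_mul_of_nonneg_left h1 (show 0 ≤ (1 - x) / 2 by linarith)
    have h4 := mul_le_mul_of_nonneg_left h2
      (show 0 ≤ 9216 * (d : ℝ) ^ 5 * (1 - x) * (m : ℝ) ^ 5 by positivity)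
    have h5 : (Real.pi - -Real.pi) • (4 * Real.exp (-(κ d * η d ^ 2 * m)))
        = 8 * Real.pi * Real.exp (-(κ d * η d ^ 2 * m)) := by
      rw [smul_eq_mul]; ring
    rw [h5]
    linarith
  · apply Continuous.intervalIntegrable
    fun_prop
  · apply Continuous.intervalIntegrable
    fun_prop
  · apply Continuous.intervalIntegrable
    fun_prop
  · apply Continuous.intervalIntegrable
    fun_prop

/-- For large scale the integral is nonnegative. -/
theorem int_nonneg (d : ℕ) (hd : 2 ≤ d) : ∃ R : ℝ, ∀ (n m k : ℕ) (x : ℝ), Scale n m x →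
    mean d n x = (k : ℝ) - 1 / 2 → 1 ≤ 256 * (d : ℝ) ^ 9 * (m : ℝ) ^ 6 * (1 - x) → R ≤ Real.sqrt m →
    0 ≤ ∫ θ in (-Real.pi)..Real.pi, L d n x θ := by
  have hd' : (2 : ℝ) ≤ d := by exact_mod_cast hd
  have hκ := κ_pos hd
  have hη := η_pos hd
  have hpi := Real.pi_pos
  set s := Real.sqrt (κ d) with hs
  have hs0 : 0 < s := Real.sqrt_pos.mpr hκ
  set D := Real.sqrt (16 * (d : ℝ) ^ 3) with hD
  have hD0 : 0 < D := Real.sqrt_pos.mpr (by positivity)
  set c2 := κ d * η d ^ 2 with hc2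
  have hc20 : 0 < c2 := by positivity
  set C1 := 9216 * (d : ℝ) ^ 5 * Real.sqrt (2 * Real.pi) * (5 / s ^ 4 + 8 / s ^ 5) with hC1
  set C2 := 8 * Real.pi * 40320 * 256 * (d : ℝ) ^ 9 / c2 ^ 8 with hC2
  have hC10 : 0 ≤ C1 := by positivity
  have hC20 : 0 ≤ C2 := by positivity
  refine ⟨1 + (C1 + C2) * D * Real.exp 1, ?_⟩
  intro n m k x h hk hx hR
  have hx1 := h.hx1
  have h1x : 0 < 1 - x := by linarith
  have hm1 : (1 : ℝ) ≤ m := by exact_mod_cast h.hm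
  refine le_trans ?_ (int_lower hd h hk)
  set r := Real.sqrt m with hr
  have hr2 : r ^ 2 = m := Real.sq_sqrt (by linarith)
  have hr1 : 1 ≤ r := by rw [hr, Real.one_le_sqrt]; exact hm1
  have hr0 : 0 < r := by linarith
  have hsq1 : Real.sqrt (16 * (d : ℝ) ^ 3 * (m : ℝ) ^ 3) = D * r ^ 3 := by
    rw [Real.sqrt_mul (by positivity), ← hD, ← hr2]
    congr 1
    rw [← pow_mul, show r ^ (2 * 3) = (r ^ 3) ^ 2 by ring]
    exact Real.sqrt_sq (by positivity)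
  have hsq2 : Real.sqrt (κ d * (m : ℝ) ^ 3) = s * r ^ 3 := by
    rw [Real.sqrt_mul hκ.le, ← hs, ← hr2]
    congr 1
    rw [← pow_mul, show r ^ (2 * 3) = (r ^ 3) ^ 2 by ring]
    exact Real.sqrt_sq (by positivity)
  rw [hsq1, hsq2]
  have hmx : r ^ 2 * (1 - x) ≤ 1 := by rw [hr2]; exact h.hme
  have hmx6 : 1 ≤ 256 * (d : ℝ) ^ 9 * r ^ 12 * (1 - x) := by
    have : r ^ 12 = (m : ℝ) ^ 6 := by rw [← hr2]; ring
    rw [this]; exact hx
  rw [show (m : ℝ) ^ 5 = r ^ 10 by rw [← hr2]; ring]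
  rw [show κ d * η d ^ 2 * (m : ℝ) = c2 * r ^ 2 by rw [← hr2]]
  -- second term
  have t2 : 9216 * (d : ℝ) ^ 5 * (1 - x) * r ^ 10 *
        ((5 * (1 - x) / (s * r ^ 3) ^ 3 + 8 / (s * r ^ 3) ^ 4)
          * (Real.sqrt (2 * Real.pi) / (s * r ^ 3))) ≤ (1 - x) * (C1 / r ^ 4) := by
    have e1 : 9216 * (d : ℝ) ^ 5 * (1 - x) * r ^ 10 *
        ((5 * (1 - x) / (s * r ^ 3) ^ 3 + 8 / (s * r ^ 3) ^ 4)
          * (Real.sqrt (2 * Real.pi) / (s * r ^ 3)))
        = (1 - x) * (9216 * (d : ℝ) ^ 5 * Real.sqrt (2 * Real.pi) *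
          (5 / s ^ 4 * (r ^ 2 * (1 - x)) + 8 / s ^ 5 * (1 / r)) / r ^ 4) := by
      field_simp
    rw [e1]
    refine mul_le_mul_of_nonneg_left ?_ h1x.le
    refine div_le_div_of_nonneg_right ?_ (by positivity)
    rw [hC1]
    refine mul_le_mul_of_nonneg_left ?_ (by positivity)
    refine add_le_add ?_ ?_
    · calc 5 / s ^ 4 * (r ^ 2 * (1 - x)) ≤ 5 / s ^ 4 * 1 :=
            mul_le_mul_of_nonneg_left hmx (by positivity)
        _ = 5 / s ^ 4 := mul_one _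
    · calc 8 / s ^ 5 * (1 / r) ≤ 8 / s ^ 5 * 1 := by
            refine mul_le_mul_of_nonneg_left ?_ (by positivity)
            rw [div_le_one hr0]; exact hr1
        _ = 8 / s ^ 5 := mul_one _
  have t3 : 8 * Real.pi * Real.exp (-(c2 * r ^ 2)) ≤ (1 - x) * (C2 / r ^ 4) := by
    have h1 := Real.pow_div_factorial_le_exp (c2 * r ^ 2) (by positivity) 8
    have h2 : Real.exp (c2 * r ^ 2) * Real.exp (-(c2 * r ^ 2)) = 1 := by
      rw [← Real.exp_add]; simp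
    have h3 := Real.exp_pos (-(c2 * r ^ 2))
    have h4 : ((Nat.factorial 8 : ℕ) : ℝ) = 40320 := by norm_num [Nat.factorial]
    rw [h4] at h1
    have h5 : Real.exp (-(c2 * r ^ 2)) ≤ 40320 / (c2 * r ^ 2) ^ 8 := by
      rw [le_div_iff₀ (by positivity)]
      have h6 : (c2 * r ^ 2) ^ 8 ≤ 40320 * Real.exp (c2 * r ^ 2) := by
        rw [div_le_iff₀ (by norm_num)] at h1
        linarith
      calc Real.exp (-(c2 * r ^ 2)) * (c2 * r ^ 2) ^ 8
          ≤ Real.exp (-(c2 * r ^ 2)) * (40320 * Real.exp (c2 * r ^ 2)) :=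
            mul_le_mul_of_nonneg_left h6 h3.le
        _ = 40320 * (Real.exp (c2 * r ^ 2) * Real.exp (-(c2 * r ^ 2))) := by ring
        _ = 40320 := by rw [h2, mul_one]
    have h7 : 8 * Real.pi * (40320 / (c2 * r ^ 2) ^ 8)
        ≤ 8 * Real.pi * (40320 / (c2 * r ^ 2) ^ 8) * (256 * (d : ℝ) ^ 9 * r ^ 12 * (1 - x)) := by
      have : 0 ≤ 8 * Real.pi * (40320 / (c2 * r ^ 2) ^ 8) := by positivity
      nlinarith
    calc 8 * Real.pi * Real.exp (-(c2 * r ^ 2)) ≤ 8 * Real.pi * (40320 / (c2 * r ^ 2) ^ 8) :=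
          mul_le_mul_of_nonneg_left h5 (by positivity)
      _ ≤ _ := h7
      _ = (1 - x) * (C2 / r ^ 4) := by
          rw [hC2]
          field_simp
  have t1 : (1 - x) / 2 * (2 * Real.exp (-1) / (D * r ^ 3))
      = (1 - x) * (Real.exp (-1) / D * r / r ^ 4) := by
    field_simp
  have t4 : (C1 + C2) ≤ Real.exp (-1) / D * r := by
    have h1 : (C1 + C2) * D * Real.exp 1 ≤ r := by linarith
    have h2 : Real.exp 1 * Real.exp (-1) = 1 := by rw [← Real.exp_add]; simp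
    have h3 : 0 < Real.exp (-1) / D := by positivity
    have h4 := mul_le_mul_of_nonneg_left h1 h3.le
    refine le_trans (le_of_eq ?_) h4
    calc C1 + C2 = (C1 + C2) * (Real.exp 1 * Real.exp (-1)) := by rw [h2, mul_one]
      _ = Real.exp (-1) / D * ((C1 + C2) * D * Real.exp 1) := by
        field_simp
  have t5 : (1 - x) * (C1 / r ^ 4) + (1 - x) * (C2 / r ^ 4)
      ≤ (1 - x) * (Real.exp (-1) / D * r / r ^ 4) := by
    rw [← mul_add, ← add_div]
    refine mul_le_mul_of_nonneg_left ?_ h1x.le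
    exact div_le_div_of_nonneg_right t4 (by positivity)
  rw [t1]
  linarith

end Pool.Agent.Helper645.Alm
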