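import Pool.Agent.Helper645.AlmF

set_option autoImplicit false

open Finset

namespace Pool.Agent.Helper645.Alm

/-- The factor of the polynomial. -/
noncomputable def Fa (d i : ℕ) : Polynomial ℕ :=
  ∑ k ∈ Finset.range d, (Polynomial.X : Polynomial ℕ) ^ (i * k)

theorem P_zero (d : ℕ) : P d 0 = 1 := by
  unfold P
  simp

theorem P_succ (d n : ℕ) : P d (n + 1) = P d n * Fa d (n + 1) := by
  unfold P Fa
  rw [Finset.prod_Icc_succ_top (by omega)]

theorem Fa_split (e i : ℕ) : Fa (e + 2) i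
    = 1 + (Polynomial.X : Polynomial ℕ) ^ i * (1 + (Polynomial.X : Polynomial ℕ) ^ i * Fa e i) := by
  unfold Fa
  rw [Finset.sum_range_succ', Finset.sum_range_succ', mul_add, mul_add, ← mul_assoc, ← pow_add,
    Finset.mul_sum]
  have : ∀ k ∈ range e, (Polynomial.X : Polynomial ℕ) ^ (i + i) * (Polynomial.X : Polynomial ℕ) ^ (i * k)
      = (Polynomial.X : Polynomial ℕ) ^ (i * (k + 1 + 1)) := by
    intro k _
    rw [← pow_add]
    congr 1
    ring
  rw [Finset.sum_congr rfl this]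
  simp only [zero_add, mul_zero, pow_zero, mul_one]
  ring

theorem Fa_split_one (e i : ℕ) : Fa (e + 1) i
    = 1 + (Polynomial.X : Polynomial ℕ) ^ i * Fa e i := by
  unfold Fa
  rw [Finset.sum_range_succ', Finset.mul_sum]
  have : ∀ k ∈ range e, (Polynomial.X : Polynomial ℕ) ^ i * (Polynomial.X : Polynomial ℕ) ^ (i * k)
      = (Polynomial.X : Polynomial ℕ) ^ (i * (k + 1)) := by
    intro k _
    rw [← pow_add]
    congr 1
    ring
  rw [Finset.sum_congr rfl this]
  simp only [mul_zero, pow_zero]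
  ring

theorem Fa_last (e i : ℕ) : Fa (e + 1) i = Fa e i + (Polynomial.X : Polynomial ℕ) ^ (i * e) := by
  unfold Fa
  rw [Finset.sum_range_succ]

theorem g1a {d : ℕ} (hd : 2 ≤ d) (L k : ℕ) :
    (P d (L + 1)).coeff k ≤ (P d L).coeff k
      + ((Polynomial.X : Polynomial ℕ) ^ (L + 1) * P d (L + 1)).coeff k := by
  obtain ⟨e, rfl⟩ : ∃ e, d = e + 1 := ⟨d - 1, by omega⟩
  have h1 : P (e + 1) (L + 1) = P (e + 1) L
      + (Polynomial.X : Polynomial ℕ) ^ (L + 1) * (P (e + 1) L * Fa e (L + 1)) := by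
    rw [P_succ, Fa_split_one]
    ring
  have h2 : P (e + 1) (L + 1) = P (e + 1) L * Fa e (L + 1)
      + P (e + 1) L * (Polynomial.X : Polynomial ℕ) ^ ((L + 1) * e) := by
    rw [P_succ, Fa_last]
    ring
  have h3 : ((Polynomial.X : Polynomial ℕ) ^ (L + 1) * (P (e + 1) L * Fa e (L + 1))).coeff k
      ≤ ((Polynomial.X : Polynomial ℕ) ^ (L + 1) * P (e + 1) (L + 1)).coeff k := by
    conv_rhs => rw [h2]
    rw [mul_add, Polynomial.coeff_add]
    exact Nat.le_add_right _ _
  calc (P (e + 1) (L + 1)).coeff k = (P (e + 1) L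
      + (Polynomial.X : Polynomial ℕ) ^ (L + 1) * (P (e + 1) L * Fa e (L + 1))).coeff k := by rw [← h1]
    _ = (P (e + 1) L).coeff k
      + ((Polynomial.X : Polynomial ℕ) ^ (L + 1) * (P (e + 1) L * Fa e (L + 1))).coeff k := by
        rw [Polynomial.coeff_add]
    _ ≤ _ := Nat.add_le_add_left h3 _

theorem g1b {d : ℕ} (hd : 2 ≤ d) (L k : ℕ) :
    (P d L).coeff k + ((Polynomial.X : Polynomial ℕ) ^ (L + 1) * P d L).coeff k
      ≤ (P d (L + 1)).coeff k := by
  obtain ⟨e, rfl⟩ : ∃ e, d = e + 2 := ⟨d - 2, by omega⟩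
  have h1 : P (e + 2) (L + 1) = P (e + 2) L + (Polynomial.X : Polynomial ℕ) ^ (L + 1) * P (e + 2) L
      + (Polynomial.X : Polynomial ℕ) ^ (L + 1) * ((Polynomial.X : Polynomial ℕ) ^ (L + 1)
        * (P (e + 2) L * Fa e (L + 1))) := by
    rw [P_succ, Fa_split]
    ring
  rw [h1, Polynomial.coeff_add, Polynomial.coeff_add]
  exact Nat.le_add_right _ _

theorem g1c {d : ℕ} (hd : 2 ≤ d) (L : ℕ) : ∀ k, 1 ≤ k → (P d L).coeff k ≤ (P d (L + 1)).coeff (k + 1) := by
  induction L with
  | zero =>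
    intro k hk
    rw [P_zero, Polynomial.coeff_one, if_neg (by omega)]
    exact Nat.zero_le _
  | succ L ih =>
    intro k hk
    have h1 := g1a hd L k
    have h2 := ih k hk
    have h3 := g1b hd (L + 1) (k + 1)
    have h4 : ((Polynomial.X : Polynomial ℕ) ^ (L + 1 + 1) * P d (L + 1)).coeff (k + 1)
        = ((Polynomial.X : Polynomial ℕ) ^ (L + 1) * P d (L + 1)).coeff k := by
      rw [Polynomial.coeff_X_pow_mul', Polynomial.coeff_X_pow_mul']
      by_cases h : L + 1 ≤ k
      · rw [if_pos h, if_pos (by omega)]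
        congr 1
        omega
      · rw [if_neg h, if_neg (by omega)]
    rw [h4] at h3
    omega

theorem g1d {d : ℕ} (hd : 2 ≤ d) (L k : ℕ) (hk : k ≤ L) : (P d (L + 1)).coeff k = (P d L).coeff k := by
  obtain ⟨e, rfl⟩ : ∃ e, d = e + 1 := ⟨d - 1, by omega⟩
  have h1 : P (e + 1) (L + 1) = P (e + 1) L
      + (Polynomial.X : Polynomial ℕ) ^ (L + 1) * (P (e + 1) L * Fa e (L + 1)) := by
    rw [P_succ, Fa_split_one]
    ring
  rw [h1, Polynomial.coeff_add, Polynomial.coeff_X_pow_mul', if_neg (by omega), add_zero]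

theorem coeff_zero {d : ℕ} (hd : 2 ≤ d) (n : ℕ) : (P d n).coeff 0 = 1 := by
  induction n with
  | zero => rw [P_zero]; simp
  | succ n ih => rw [g1d hd n 0 (Nat.zero_le _)]; exact ih

theorem coeff_one_ge {d : ℕ} (hd : 2 ≤ d) (n : ℕ) : 1 ≤ (P d (n + 1)).coeff 1 := by
  induction n with
  | zero =>
    have := g1b hd 0 1
    rw [P_zero] at this
    simp only [Polynomial.coeff_one, mul_one, zero_add, pow_one, Polynomial.coeff_X_one] at this
    exact this
  | succ n ih =>
    have := g1b hd (n + 1) 1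
    omega

/-- Small indices. -/
theorem small_k {d : ℕ} (hd : 2 ≤ d) (n k : ℕ) (hk1 : 1 ≤ k) (hkn : k ≤ n) :
    (P d n).coeff (k - 1) ≤ (P d n).coeff k := by
  obtain ⟨n', rfl⟩ : ∃ n', n = n' + 1 := ⟨n - 1, by omega⟩
  rcases Nat.lt_or_ge k 2 with h | h
  · have : k = 1 := by omega
    subst this
    rw [Nat.sub_self, coeff_zero hd]
    exact coeff_one_ge hd n'
  · obtain ⟨k', rfl⟩ : ∃ k', k = k' + 1 := ⟨k - 1, by omega⟩
    rw [Nat.add_sub_cancel, g1d hd n' k' (by omega)]
    exact g1c hd n' k' (by omega)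

/-- The degree. -/
def Nd (d n : ℕ) : ℕ := ∑ i ∈ Icc 1 n, i * (d - 1)

theorem Nd_succ (d n : ℕ) : Nd d (n + 1) = Nd d n + (n + 1) * (d - 1) := by
  unfold Nd
  rw [Finset.sum_Icc_succ_top (by omega)]

theorem Fa_natDegree (d i : ℕ) : (Fa d i).natDegree ≤ i * (d - 1) := by
  unfold Fa
  refine Polynomial.natDegree_sum_le_of_forall_le _ _ (fun k hk => ?_)
  rw [Polynomial.natDegree_X_pow]
  have : k ≤ d - 1 := by
    have := Finset.mem_range.mp hk
    omega
  exact Nat.mul_le_mul_left i this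

theorem Fa_reflect {d : ℕ} (i : ℕ) : Polynomial.reflect (i * (d - 1)) (Fa d i) = Fa d i := by
  ext l
  rw [Polynomial.coeff_reflect]
  have hc : ∀ l, (Fa d i).coeff l = ∑ k ∈ range d, if l = i * k then 1 else 0 := by
    intro l
    unfold Fa
    rw [Polynomial.finsetSum_coeff]
    refine Finset.sum_congr rfl (fun k _ => ?_)
    rw [Polynomial.coeff_X_pow]
  rw [hc, hc, ← Finset.sum_range_reflect]
  refine Finset.sum_congr rfl (fun k hk => ?_)
  have hk' := Finset.mem_range.mp hk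
  congr 1
  apply propext
  have hik : i * (d - 1) = i * (d - 1 - k) + i * k := by
    rw [← Nat.mul_add]
    congr 1
    omega
  by_cases hl : l ≤ i * (d - 1)
  · rw [Polynomial.revAt_le hl]
    omega
  · rw [Polynomial.revAt_eq_self_of_lt (by omega)]
    omega

theorem P_reflect (d n : ℕ) :
    (P d n).natDegree ≤ Nd d n ∧ Polynomial.reflect (Nd d n) (P d n) = P d n := by
  induction n with
  | zero =>
    rw [P_zero]
    constructor
    · simp
    · have : Nd d 0 = 0 := by unfold Nd; simp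
      rw [this]
      ext l
      rw [Polynomial.coeff_reflect]
      rcases Nat.eq_zero_or_pos l with h | h
      · subst h; simp
      · rw [Polynomial.revAt_eq_self_of_lt h]
  | succ n ih =>
    obtain ⟨h1, h2⟩ := ih
    rw [P_succ, Nd_succ]
    constructor
    · exact (Polynomial.natDegree_mul_le).trans (Nat.add_le_add h1 (Fa_natDegree d (n + 1)))
    · rw [Polynomial.reflect_mul _ _ h1 (Fa_natDegree d (n + 1)), h2, Fa_reflect]

theorem P_symm (d n l : ℕ) (hl : l ≤ Nd d n) : (P d n).coeff (Nd d n - l) = (P d n).coeff l := by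
  have h := (P_reflect d n).2
  have h2 : (Polynomial.reflect (Nd d n) (P d n)).coeff l = (P d n).coeff l := by rw [h]
  rw [Polynomial.coeff_reflect, Polynomial.revAt_le hl] at h2
  exact h2

theorem P_zero_of_gt (d n l : ℕ) (hl : Nd d n < l) : (P d n).coeff l = 0 :=
  Polynomial.coeff_eq_zero_of_natDegree_lt (lt_of_le_of_lt (P_reflect d n).1 hl)

/-- From steps to unimodality. -/
theorem unimodal_of_steps (d n : ℕ)
    (hstep : ∀ k, 1 ≤ k → 2 * k ≤ Nd d n → (P d n).coeff (k - 1) ≤ (P d n).coeff k) :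
    ∃ m : ℕ, (∀ a b : ℕ, a ≤ b → b ≤ m → (P d n).coeff a ≤ (P d n).coeff b) ∧
      (∀ a b : ℕ, m ≤ a → a ≤ b → (P d n).coeff b ≤ (P d n).coeff a) := by
  have hup : ∀ a b : ℕ, a ≤ b → b ≤ Nd d n / 2 → (P d n).coeff a ≤ (P d n).coeff b := by
    intro a b hab
    induction b, hab using Nat.le_induction with
    | base => intro _; exact le_refl _
    | succ b hab ih =>
      intro hb
      have h1 := ih (by omega)
      have h2 := hstep (b + 1) (by omega) (by omega)
      rw [Nat.add_sub_cancel] at h2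
      exact h1.trans h2
  refine ⟨Nd d n / 2, hup, ?_⟩
  intro a b ha hab
  rcases Nat.lt_or_ge (Nd d n) b with hb | hb
  · rw [P_zero_of_gt d n b hb]
    exact Nat.zero_le _
  · rcases Nat.eq_or_lt_of_le hab with h | h
    · rw [h]
    · rw [← P_symm d n b hb]
      rcases Nat.lt_or_ge (Nd d n) (2 * a) with h2 | h2
      · rw [← P_symm d n a (by omega)]
        exact hup _ _ (by omega) (by omega)
      · exact hup _ _ (by omega) (by omega)

end Pool.Agent.Helper645.Alm
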