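import Pool.Agent.Helper645.AlmG

set_option autoImplicit false

open Finset

namespace Pool.Agent.Helper645.Alm

theorem mean_continuousOn {d : ℕ} (hd : 2 ≤ d) (n : ℕ) :
    ContinuousOn (fun x => mean d n x) (Set.Icc 0 1) := by
  unfold mean mu w
  refine continuousOn_finsetSum _ (fun i _ => ?_)
  refine ContinuousOn.mul continuousOn_const ?_
  refine continuousOn_finsetSum _ (fun j _ => ?_)
  refine ContinuousOn.mul ?_ continuousOn_const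
  refine ContinuousOn.div ?_ ?_ ?_
  · fun_prop
  · unfold Z
    fun_prop
  · intro x hx
    exact (Z_pos hd (pow_nonneg hx.1 i)).ne'

theorem mean_zero {d : ℕ} (hd : 2 ≤ d) (n : ℕ) : mean d n 0 = 0 := by
  unfold mean
  refine Finset.sum_eq_zero (fun i hi => ?_)
  have hi' : i ≠ 0 := by
    have := (Finset.mem_Icc.mp hi).1
    omega
  rw [zero_pow hi']
  have h1 := mu_nonneg (d := d) (q := 0) hd le_rfl
  have h2 := mu_le_q (d := d) (q := 0) hd le_rfl zero_le_one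
  rw [mul_zero] at h2
  rw [le_antisymm h2 h1, mul_zero]

theorem Nd_cast {d : ℕ} (hd : 2 ≤ d) (n : ℕ) :
    ((Nd d n : ℕ) : ℝ) / 2 = ∑ i ∈ Icc 1 n, (i : ℝ) * (((d : ℝ) - 1) / 2) := by
  unfold Nd
  push_cast
  rw [Finset.sum_div]
  refine Finset.sum_congr rfl (fun i _ => ?_)
  rw [Nat.cast_sub (by omega)]
  push_cast
  ring

theorem mean_one {d : ℕ} (hd : 2 ≤ d) (n : ℕ) : mean d n 1 = (Nd d n : ℝ) / 2 := by
  rw [Nd_cast hd]
  unfold mean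
  refine Finset.sum_congr rfl (fun i _ => ?_)
  rw [one_pow]
  have h := mu_near (d := d) (q := 1) hd zero_le_one le_rfl
  rw [sub_self, mul_zero] at h
  have h2 := abs_nonpos_iff.mp h
  rw [sub_eq_zero.mp h2]

/-- Upper bound for the mean. -/
theorem mean_le {d : ℕ} (hd : 2 ≤ d) (n : ℕ) {x : ℝ} (hx0 : 0 ≤ x) (hx1 : x < 1) :
    mean d n x ≤ (d : ℝ) ^ 2 / (1 - x) ^ 2 := by
  unfold mean
  have h1 := sum_pow_geom 1 n x hx0 hx1
  calc ∑ i ∈ Icc 1 n, (i : ℝ) * mu d (x ^ i)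
      ≤ ∑ i ∈ Icc 1 n, (d : ℝ) ^ 2 * ((i : ℝ) ^ 1 * x ^ i) := by
        refine Finset.sum_le_sum (fun i _ => ?_)
        have h2 := mu_le_q (d := d) (q := x ^ i) hd (pow_nonneg hx0 i) (pow_le_one₀ hx0 hx1.le)
        calc (i : ℝ) * mu d (x ^ i) ≤ (i : ℝ) * ((d : ℝ) ^ 2 * x ^ i) :=
              mul_le_mul_of_nonneg_left h2 (Nat.cast_nonneg i)
          _ = (d : ℝ) ^ 2 * ((i : ℝ) ^ 1 * x ^ i) := by ring
    _ = (d : ℝ) ^ 2 * ∑ i ∈ Icc 1 n, ((i : ℝ) ^ 1 * x ^ i) := by rw [Finset.mul_sum]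
    _ ≤ (d : ℝ) ^ 2 * (((Nat.factorial 1 : ℕ) : ℝ) / (1 - x) ^ (1 + 1)) :=
        mul_le_mul_of_nonneg_left h1 (by positivity)
    _ = (d : ℝ) ^ 2 / (1 - x) ^ 2 := by
        rw [Nat.factorial_one]
        push_cast
        ring

/-- Lower bound for the mean near the centre. -/
theorem mean_ge {d : ℕ} (hd : 2 ≤ d) (n : ℕ) {x : ℝ} (hx0 : 0 ≤ x) (hx1 : x ≤ 1) :
    (Nd d n : ℝ) / 2 - 2 * (d : ℝ) ^ 3 * (1 - x) * (n : ℝ) ^ 3 ≤ mean d n x := by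
  rw [Nd_cast hd]
  unfold mean
  have h1x : 0 ≤ 1 - x := by linarith
  have h1 : ∑ i ∈ Icc 1 n, ((i : ℝ) * (((d : ℝ) - 1) / 2) - (i : ℝ) * mu d (x ^ i))
      ≤ 2 * (d : ℝ) ^ 3 * (1 - x) * (n : ℝ) ^ 3 := by
    calc ∑ i ∈ Icc 1 n, ((i : ℝ) * (((d : ℝ) - 1) / 2) - (i : ℝ) * mu d (x ^ i))
        ≤ ∑ i ∈ Icc 1 n, 2 * (d : ℝ) ^ 3 * (1 - x) * (n : ℝ) ^ 2 := by
          refine Finset.sum_le_sum (fun i hi => ?_)
          have hin : (i : ℝ) ≤ n := by exact_mod_cast (Finset.mem_Icc.mp hi).2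
          have hi0 : (0 : ℝ) ≤ i := Nat.cast_nonneg i
          have h2 := mu_near (d := d) (q := x ^ i) hd (pow_nonneg hx0 i) (pow_le_one₀ hx0 hx1)
          have h3 := (abs_le.mp h2).1
          have hb : 1 - x ^ i ≤ i * (1 - x) := by
            have := one_add_mul_le_pow (show (-2 : ℝ) ≤ x - 1 by linarith) i
            have e : (1 + (x - 1)) ^ i = x ^ i := by ring_nf
            rw [e] at this
            linarith
          have h4 : 2 * (d : ℝ) ^ 3 * (1 - x ^ i) ≤ 2 * (d : ℝ) ^ 3 * (i * (1 - x)) :=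
            mul_le_mul_of_nonneg_left hb (by positivity)
          calc (i : ℝ) * (((d : ℝ) - 1) / 2) - (i : ℝ) * mu d (x ^ i)
              = (i : ℝ) * (((d : ℝ) - 1) / 2 - mu d (x ^ i)) := by ring
            _ ≤ (i : ℝ) * (2 * (d : ℝ) ^ 3 * (i * (1 - x))) :=
                mul_le_mul_of_nonneg_left (by linarith) hi0
            _ = 2 * (d : ℝ) ^ 3 * (1 - x) * (i : ℝ) ^ 2 := by ring
            _ ≤ 2 * (d : ℝ) ^ 3 * (1 - x) * (n : ℝ) ^ 2 :=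
                mul_le_mul_of_nonneg_left (pow_le_pow_left₀ hi0 hin 2) (by positivity)
      _ = 2 * (d : ℝ) ^ 3 * (1 - x) * (n : ℝ) ^ 3 := by
          rw [Finset.sum_const, Nat.card_Icc, nsmul_eq_mul, Nat.add_sub_cancel]
          ring
  rw [Finset.sum_sub_distrib] at h1
  linarith

/-- Large indices. -/
theorem large_k (d : ℕ) (hd : 2 ≤ d) : ∃ N : ℕ, ∀ n k : ℕ, N ≤ n → n < k → 2 * k ≤ Nd d n →
    (P d n).coeff (k - 1) ≤ (P d n).coeff k := by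
  obtain ⟨R, hR⟩ := int_nonneg d hd
  have hd' : (2 : ℝ) ≤ d := by exact_mod_cast hd
  set R' := max R 1 with hR'
  have hR1 : 1 ≤ R' := le_max_right _ _
  have hRR : R ≤ R' := le_max_left _ _
  obtain ⟨N, hN⟩ := exists_nat_ge (4 * (d : ℝ) ^ 2 * R' ^ 4)
  refine ⟨N, ?_⟩
  intro n k hn hnk hk
  have hnR : 4 * (d : ℝ) ^ 2 * R' ^ 4 ≤ n := hN.trans (by exact_mod_cast hn)
  have hn4 : 4 * (d : ℝ) ^ 2 ≤ n := by
    have : (1 : ℝ) ≤ R' ^ 4 := one_le_pow₀ hR1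
    have h2 : 0 ≤ 4 * (d : ℝ) ^ 2 := by positivity
    nlinarith
  have hn1 : (1 : ℝ) ≤ n := by nlinarith
  have hk2 : (k : ℝ) ≤ (Nd d n : ℝ) / 2 := by
    have : (2 : ℝ) * k ≤ Nd d n := by exact_mod_cast hk
    linarith
  have hnk' : (n : ℝ) + 1 ≤ k := by exact_mod_cast hnk
  -- choose `x`
  have hivt := intermediate_value_Icc (zero_le_one (α := ℝ)) (mean_continuousOn hd n)
  rw [mean_zero hd, mean_one hd] at hivt
  obtain ⟨x, ⟨hx0, hx1⟩, hx⟩ := hivt (show (k : ℝ) - 1 / 2 ∈ Set.Icc 0 ((Nd d n : ℝ) / 2) from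
    ⟨by linarith, by linarith⟩)
  have hx : mean d n x = (k : ℝ) - 1 / 2 := hx
  have hx1' : x < 1 := by
    rcases hx1.eq_or_lt with h | h
    · exfalso
      rw [h, mean_one hd] at hx
      linarith
    · exact h
  have h1x : 0 < 1 - x := by linarith
  have hA : (n : ℝ) * (1 - x) ^ 2 ≤ (d : ℝ) ^ 2 := by
    have h1 := mean_le hd n hx0 hx1'
    rw [hx, le_div_iff₀ (by positivity)] at h1
    have h2 : (n : ℝ) * (1 - x) ^ 2 ≤ ((k : ℝ) - 1 / 2) * (1 - x) ^ 2 :=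
      mul_le_mul_of_nonneg_right (by linarith) (by positivity)
    linarith
  have hB : 1 ≤ 4 * (d : ℝ) ^ 3 * (n : ℝ) ^ 3 * (1 - x) := by
    have h1 := mean_ge hd n hx0 hx1
    rw [hx] at h1
    nlinarith
  have hhalf : 1 / 2 ≤ x := by
    by_contra hcon
    have h1 : 1 / 2 < 1 - x := by linarith
    have h2 : (1 / 2 : ℝ) ^ 2 < (1 - x) ^ 2 := pow_lt_pow_left₀ h1 (by norm_num) (by norm_num)
    have h3 : 4 * (d : ℝ) ^ 2 * (1 - x) ^ 2 ≤ n * (1 - x) ^ 2 :=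
      mul_le_mul_of_nonneg_right hn4 (by positivity)
    have h4 : 0 < 4 * (d : ℝ) ^ 2 := by positivity
    nlinarith
  -- choose the scale
  obtain ⟨m, hS, hnm⟩ : ∃ m : ℕ, Scale n m x ∧ (n : ℝ) ≤ 4 * (d : ℝ) ^ 2 * (m : ℝ) ^ 2 := by
    rcases le_total ((n : ℝ) * (1 - x)) 1 with hc | hc
    · refine ⟨n, ⟨hhalf, hx1', ?_, le_rfl, hc, Or.inl rfl⟩, ?_⟩
      · exact_mod_cast hn1
      · have h1 : (n : ℝ) ≤ (n : ℝ) ^ 2 := by nlinarith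
        have h2 : (1 : ℝ) ≤ 4 * (d : ℝ) ^ 2 := by nlinarith
        have h3 : (0 : ℝ) ≤ (n : ℝ) ^ 2 := by positivity
        nlinarith
    · have hinv : 2 ≤ 1 / (1 - x) := by
        rw [le_div_iff₀ h1x]
        linarith
      have hfl1 : ((⌊1 / (1 - x)⌋₊ : ℕ) : ℝ) ≤ 1 / (1 - x) := Nat.floor_le (by positivity)
      have hfl2 : 1 / (1 - x) < ((⌊1 / (1 - x)⌋₊ : ℕ) : ℝ) + 1 := Nat.lt_floor_add_one _
      have hm1 : 1 ≤ ⌊1 / (1 - x)⌋₊ := by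
        apply Nat.le_floor
        push_cast
        linarith
      have hm1' : (1 : ℝ) ≤ ((⌊1 / (1 - x)⌋₊ : ℕ) : ℝ) := by exact_mod_cast hm1
      have hup : 1 ≤ 2 * ((⌊1 / (1 - x)⌋₊ : ℕ) : ℝ) * (1 - x) := by
        have h1 : 1 / (1 - x) ≤ 2 * ((⌊1 / (1 - x)⌋₊ : ℕ) : ℝ) := by linarith
        rw [div_le_iff₀ h1x] at h1
        exact h1
      refine ⟨⌊1 / (1 - x)⌋₊, ⟨hhalf, hx1', hm1, ?_, ?_, Or.inr hup⟩, ?_⟩
      · have h1 : 1 / (1 - x) ≤ n := by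
          rw [div_le_iff₀ h1x]
          exact hc
        exact_mod_cast hfl1.trans h1
      · calc ((⌊1 / (1 - x)⌋₊ : ℕ) : ℝ) * (1 - x) ≤ 1 / (1 - x) * (1 - x) :=
              mul_le_mul_of_nonneg_right hfl1 h1x.le
          _ = 1 := by field_simp
      · set M := ((⌊1 / (1 - x)⌋₊ : ℕ) : ℝ) with hM
        have h1 : (1 : ℝ) ≤ (2 * M * (1 - x)) ^ 2 := one_le_pow₀ hup
        have h2 : (n : ℝ) * (1 - x) ^ 2 ≤ (4 * (d : ℝ) ^ 2 * M ^ 2) * (1 - x) ^ 2 := by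
          have h3 : (d : ℝ) ^ 2 ≤ (d : ℝ) ^ 2 * (2 * M * (1 - x)) ^ 2 := by
            have : (0 : ℝ) ≤ (d : ℝ) ^ 2 := by positivity
            nlinarith
          calc (n : ℝ) * (1 - x) ^ 2 ≤ (d : ℝ) ^ 2 := hA
            _ ≤ (d : ℝ) ^ 2 * (2 * M * (1 - x)) ^ 2 := h3
            _ = (4 * (d : ℝ) ^ 2 * M ^ 2) * (1 - x) ^ 2 := by ring
        exact le_of_mul_le_mul_right h2 (by positivity)
  have hm0 : (0 : ℝ) ≤ m := Nat.cast_nonneg m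
  have hcond : 1 ≤ 256 * (d : ℝ) ^ 9 * (m : ℝ) ^ 6 * (1 - x) := by
    have h1 : (n : ℝ) ^ 3 ≤ (4 * (d : ℝ) ^ 2 * (m : ℝ) ^ 2) ^ 3 :=
      pow_le_pow_left₀ (by linarith) hnm 3
    have h2 : 4 * (d : ℝ) ^ 3 * (n : ℝ) ^ 3 * (1 - x)
        ≤ 4 * (d : ℝ) ^ 3 * (4 * (d : ℝ) ^ 2 * (m : ℝ) ^ 2) ^ 3 * (1 - x) := by
      refine mul_le_mul_of_nonneg_right ?_ h1x.le
      exact mul_le_mul_of_nonneg_left h1 (by positivity)
    have h3 : 4 * (d : ℝ) ^ 3 * (4 * (d : ℝ) ^ 2 * (m : ℝ) ^ 2) ^ 3 * (1 - x)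
        = 256 * (d : ℝ) ^ 9 * (m : ℝ) ^ 6 * (1 - x) := by ring
    linarith
  have hsqrt : R ≤ Real.sqrt m := by
    refine hRR.trans ?_
    apply Real.le_sqrt_of_sq_le
    have h1 : 4 * (d : ℝ) ^ 2 * R' ^ 4 ≤ 4 * (d : ℝ) ^ 2 * (m : ℝ) ^ 2 := hnR.trans hnm
    have h2 : R' ^ 4 ≤ (m : ℝ) ^ 2 := le_of_mul_le_mul_left h1 (by positivity)
    have h3 : (R' ^ 2) ^ 2 ≤ (m : ℝ) ^ 2 := by
      calc (R' ^ 2) ^ 2 = R' ^ 4 := by ring
        _ ≤ _ := h2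
    exact (pow_le_pow_iff_left₀ (by positivity) hm0 two_ne_zero).mp h3
  have hint := hR n m k x hS hx hcond hsqrt
  rw [integral_L n k x (by omega) hx] at hint
  have hxpos : 0 < x := by linarith
  have hW := W_pos hd n hx0
  have hpi := Real.pi_pos
  have hcoef : 0 < 2 * Real.pi * x ^ k * (W d n x)⁻¹ := by positivity
  have h0 : 0 ≤ ((P d n).coeff k : ℝ) - ((P d n).coeff (k - 1) : ℝ) :=
    nonneg_of_mul_nonneg_right hint hcoef
  have h1 : ((P d n).coeff (k - 1) : ℝ) ≤ ((P d n).coeff k : ℝ) := by linarith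
  exact_mod_cast h1

theorem main (d : ℕ) (hd : 2 ≤ d) : ∃ N : ℕ, ∀ n : ℕ, N ≤ n →
    ∃ m : ℕ, (∀ a b : ℕ, a ≤ b → b ≤ m → (P d n).coeff a ≤ (P d n).coeff b) ∧
      (∀ a b : ℕ, m ≤ a → a ≤ b → (P d n).coeff b ≤ (P d n).coeff a) := by
  obtain ⟨N, hN⟩ := large_k d hd
  refine ⟨N, fun n hn => ?_⟩
  apply unimodal_of_steps
  intro k hk1 hk2
  rcases Nat.lt_or_ge n k with h | h
  · exact hN n k hn h hk2
  · exact small_k hd n k hk1 h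

end Pool.Agent.Helper645.Alm
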